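import Pool.Agent.Helper51_TP.Ann

/-!
# MP_ce3ba7_al, characteristic 3, module LN (helper59)

Local nilpotency: a commutative alternative ring with `3 = 0` and `x ^ 3 = 0`, generated by
finitely many elements, is nilpotent (given the descent theorem `CCStmt` for alternating
multiderivations).
-/

set_option autoImplicit false
set_option linter.unusedSectionVars false
set_option linter.unusedVariables false

namespace Pool.Agent.TP

namespace LN

open H51

/-- commutative alternative ring of characteristic 3 -/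
structure CA (A : Type) [NonUnitalNonAssocRing A] : Prop where
  alt : IsAlt A
  comm : ∀ a b : A, a * b = b * a
  three : ∀ a : A, a + a + a = 0

/-- alternating multiderivations of arity `k` (functions on lists of length `k`) -/
structure IsMD {A : Type} [NonUnitalNonAssocRing A] (k : ℕ) (ψ : List A → A) : Prop where
  swap : ∀ (l1 : List A) (a b : A) (l2 : List A), (l1 ++ a :: b :: l2).length = k →
    ψ (l1 ++ a :: b :: l2) = - ψ (l1 ++ b :: a :: l2)
  add : ∀ (a b : A) (l : List A), l.length + 1 = k → ψ ((a + b) :: l) = ψ (a :: l) + ψ (b :: l)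
  der : ∀ (a b : A) (l : List A), l.length + 1 = k →
    ψ ((a * b) :: l) = a * ψ (b :: l) + b * ψ (a :: l)

/-- the descent theorem, for all alternating multiderivations -/
def CCStmt : Prop :=
  ∀ (A : Type) [NonUnitalNonAssocRing A], CA A →
    (∀ g : A, (∀ a b, asc g a b = 0) → g = 0) →
    (∀ g : A, (∀ a b c, g * asc a b c = 0) → g = 0) →
    (∃ M : ℕ, ∀ k > M, ∀ ψ : List A → A, IsMD k ψ → ∀ l : List A, l.length = k → ψ l = 0) →
    ∀ a b c : A, asc a b c = 0

section basic

variable {A : Type} [NonUnitalNonAssocRing A] (h : CA A)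
include h

lemma eq_of_two {a : A} (ha : a + a = 0) : a = 0 := by
  have h1 := h.three a
  rw [ha, zero_add] at h1
  exact h1

lemma two_neg (a : A) : a + a = -a := eq_neg_of_add_eq_zero_left (h.three a)

/-- `(a b) c = - (a (b c) + b (a c))` -/
lemma mul_l (a b c : A) : a * b * c = - (a * (b * c)) - b * (a * c) := by
  have h1 := asc_s12 h.alt a b c
  unfold asc at h1
  rw [h.comm b a] at h1
  have h2 := two_neg h (a * b * c)
  have h3 : a * b * c + a * b * c = a * (b * c) + b * (a * c) := by
    have : a * b * c - a * (b * c) + (a * b * c - b * (a * c)) = 0 := by rw [h1]; abel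
    rw [← sub_eq_zero, ← this]; abel
  rw [h3] at h2
  rw [← neg_neg (a * b * c), ← h2]
  abel

lemma kf0 (w x y z : A) : kf w x y z = 0 := by
  have h1 := kf_s12 h.alt w x y z
  have h2 : kf x w y z = kf w x y z := by
    unfold kf
    rw [h.comm x w, h.comm (asc w y z) x, h.comm w (asc x y z)]
    abel
  rw [h2] at h1
  exact eq_of_two h (add_eq_zero_iff_eq_neg.mpr h1)

lemma asc_mul1 (a b c d : A) : asc (a * b) c d = a * asc b c d + b * asc a c d := by
  have h1 := kf0 h a b c d
  unfold kf at h1
  rw [h.comm (asc b c d) a, sub_sub, sub_eq_zero] at h1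
  rw [h1, add_comm]

end basic

/-- product of additive subgroups -/
def pr {A : Type} [NonUnitalNonAssocRing A] (V E : AddSubgroup A) : AddSubgroup A :=
  AddSubgroup.closure {c | ∃ v ∈ V, ∃ e ∈ E, c = v * e}

section pr

variable {A : Type} [NonUnitalNonAssocRing A]

lemma mem_pr {V E : AddSubgroup A} {v e : A} (hv : v ∈ V) (he : e ∈ E) : v * e ∈ pr V E :=
  AddSubgroup.subset_closure ⟨v, hv, e, he, rfl⟩

lemma pr_le {V E W : AddSubgroup A} (hh : ∀ v ∈ V, ∀ e ∈ E, v * e ∈ W) : pr V E ≤ W := by
  unfold pr
  rw [AddSubgroup.closure_le]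
  rintro c ⟨v, hv, e, he, rfl⟩
  exact hh v hv e he

lemma pr_mono {V V' E E' : AddSubgroup A} (hV : V ≤ V') (hE : E ≤ E') : pr V E ≤ pr V' E' :=
  pr_le fun v hv e he => mem_pr (hV hv) (hE he)

/-- `V (V (... E))` -/
def ch (V E : AddSubgroup A) : ℕ → AddSubgroup A
  | 0 => E
  | n + 1 => pr V (ch V E n)

lemma ch_mono {V V' E E' : AddSubgroup A} (hV : V ≤ V') (hE : E ≤ E') (n : ℕ) :
    ch V E n ≤ ch V' E' n := by
  induction n with
  | zero => exact hE
  | succ n ih => exact pr_mono hV ih

lemma ch_add (V E : AddSubgroup A) (n m : ℕ) : ch V E (n + m) = ch V (ch V E n) m := by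
  induction m with
  | zero => rfl
  | succ m ih =>
    change pr V (ch V E (n + m)) = pr V (ch V (ch V E n) m)
    rw [ih]

/-- ideals of a commutative ring -/
def IsId (I : AddSubgroup A) : Prop := ∀ a b, b ∈ I → a * b ∈ I

lemma ch_anti {V E : AddSubgroup A} (hE : IsId E) (n : ℕ) : ch V E (n + 1) ≤ ch V E n := by
  induction n with
  | zero => exact pr_le fun v _ e he => hE v e he
  | succ n ih => exact pr_mono le_rfl ih

lemma ch_anti' {V E : AddSubgroup A} (hE : IsId E) {n m : ℕ} (hnm : n ≤ m) :
    ch V E m ≤ ch V E n := by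
  induction hnm with
  | refl => exact le_rfl
  | step _ ih => exact (ch_anti hE _).trans ih

/-- `V` acts nilpotently on `E` -/
def Act (V E : AddSubgroup A) : Prop := ∃ s, ch V E s = ⊥

variable (h : CA A) (hcube : ∀ a : A, a * (a * a) = 0)
include h

/-- `a` preserves the chain of `V` if `V` is an ideal -/
lemma ch_stable {V E : AddSubgroup A} (hV : IsId V) (hE : IsId E) (a : A) (n : ℕ) :
    ∀ e ∈ ch V E n, a * e ∈ ch V E n := by
  induction n with
  | zero => exact fun e he => hE a e he
  | succ n ih =>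
    intro e he
    change e ∈ pr V (ch V E n) at he
    change a * e ∈ pr V (ch V E n)
    unfold pr at he
    induction he using AddSubgroup.closure_induction with
    | mem e he =>
      obtain ⟨v, hv, e, he, rfl⟩ := he
      have h1 := mul_l h a v e
      have h2 : a * (v * e) = - (a * v * e) - v * (a * e) := by rw [h1]; abel
      rw [h2]
      exact AddSubgroup.sub_mem _ (AddSubgroup.neg_mem _ (mem_pr (hV a v hv) he))
        (mem_pr hv (ih e he))
    | zero => rw [mul_zero]; exact AddSubgroup.zero_mem _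
    | add x y _ _ hx hy => rw [mul_add]; exact AddSubgroup.add_mem _ hx hy
    | neg x _ hx => rw [mul_neg]; exact AddSubgroup.neg_mem _ hx

/-- `a (a (a e)) = 0` -/
lemma cube_act (hcube : ∀ a : A, a * (a * a) = 0) (a e : A) : a * (a * (a * e)) = 0 := by
  have h1 := mul_l h a (a * a) e
  rw [hcube, zero_mul] at h1
  have h2 : a * a * (a * e) = a * (a * (a * e)) := h.alt.1 a (a * e)
  have h3 : a * (a * a * e) = a * (a * (a * e)) := by rw [h.alt.1 a e]
  rw [h2, h3] at h1
  refine eq_of_two h ?_
  rw [← neg_eq_zero, h1]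
  abel

lemma act_step (hcube : ∀ a : A, a * (a * a) = 0) {V E : AddSubgroup A} (hV : IsId V)
    (hE : IsId E) (hact : Act V E) (a : A) : Act (V ⊔ AddSubgroup.zmultiples a) E := by
  obtain ⟨s, hs⟩ := hact
  set W := V ⊔ AddSubgroup.zmultiples a with hW
  have hdec : ∀ w ∈ W, ∃ v ∈ V, ∃ k : ℤ, w = v + k • a := by
    intro w hw
    rw [hW, AddSubgroup.mem_sup] at hw
    obtain ⟨v, hv, y, hy, rfl⟩ := hw
    obtain ⟨k, rfl⟩ := AddSubgroup.mem_zmultiples_iff.mp hy
    exact ⟨v, hv, k, rfl⟩
  have key : ∀ j, ∀ w1 ∈ W, ∀ w2 ∈ W, ∀ w3 ∈ W, ∀ e ∈ ch V E j,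
      w1 * (w2 * (w3 * e)) ∈ ch V E (j + 1) := by
    intro j w1 hw1 w2 hw2 w3 hw3 e he
    obtain ⟨v1, hv1, k1, rfl⟩ := hdec w1 hw1
    obtain ⟨v2, hv2, k2, rfl⟩ := hdec w2 hw2
    obtain ⟨v3, hv3, k3, rfl⟩ := hdec w3 hw3
    have st := fun b => ch_stable h hV hE b
    have m1 : ∀ e ∈ ch V E j, ∀ b, b * e ∈ ch V E j := fun e he b => st b j e he
    have m2 : ∀ e ∈ ch V E (j + 1), ∀ b, b * e ∈ ch V E (j + 1) := fun e he b => st b (j + 1) e he
    have mv : ∀ v ∈ V, ∀ e ∈ ch V E j, v * e ∈ ch V E (j + 1) := fun v hv e he => mem_pr hv he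
    have e1 : (v1 + k1 • a) * ((v2 + k2 • a) * ((v3 + k3 • a) * e)) =
        v1 * ((v2 + k2 • a) * ((v3 + k3 • a) * e)) + (k1 • a) * (v2 * ((v3 + k3 • a) * e)) +
        (k1 • a) * ((k2 • a) * (v3 * e)) + k3 • k2 • k1 • (a * (a * (a * e))) := by
      simp only [add_mul, mul_add, smul_mul_assoc, mul_smul_comm, smul_add]
      abel
    rw [e1, cube_act h hcube, smul_zero, smul_zero, smul_zero, add_zero]
    refine AddSubgroup.add_mem _ (AddSubgroup.add_mem _ ?_ ?_) ?_
    · exact mv _ hv1 _ (m1 _ (m1 _ he _) _)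
    · exact m2 _ (mv _ hv2 _ (m1 _ he _)) _
    · exact m2 _ (m2 _ (mv _ hv3 _ he) _) _
  have key2 : ∀ j, ch W E (3 * j) ≤ ch V E j := by
    intro j
    induction j with
    | zero => exact le_rfl
    | succ j ih =>
      have e3 : 3 * (j + 1) = 3 * j + 1 + 1 + 1 := by ring
      rw [e3]
      change pr W (pr W (pr W (ch W E (3 * j)))) ≤ _
      have l1 : pr W (ch W E (3 * j)) ≤ pr W (ch V E j) := pr_mono le_rfl ih
      refine (pr_mono le_rfl (pr_mono le_rfl l1)).trans ?_
      refine pr_le fun w1 hw1 e he => ?_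
      unfold pr at he
      induction he using AddSubgroup.closure_induction with
      | mem e he =>
        obtain ⟨w2, hw2, e, he, rfl⟩ := he
        induction he using AddSubgroup.closure_induction with
        | mem e he =>
          obtain ⟨w3, hw3, e, he, rfl⟩ := he
          exact key j w1 hw1 w2 hw2 w3 hw3 e he
        | zero => rw [mul_zero, mul_zero]; exact AddSubgroup.zero_mem _
        | add x y _ _ hx hy => rw [mul_add, mul_add]; exact AddSubgroup.add_mem _ hx hy
        | neg x _ hx => rw [mul_neg, mul_neg]; exact AddSubgroup.neg_mem _ hx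
      | zero => rw [mul_zero]; exact AddSubgroup.zero_mem _
      | add x y _ _ hx hy => rw [mul_add]; exact AddSubgroup.add_mem _ hx hy
      | neg x _ hx => rw [mul_neg]; exact AddSubgroup.neg_mem _ hx
  exact ⟨3 * s, le_bot_iff.mp ((key2 s).trans hs.le)⟩

end pr

section md

variable {A : Type} [NonUnitalNonAssocRing A] (h : CA A) {k : ℕ} {ψ : List A → A}
  (hψ : IsMD k ψ)
include hψ

lemma md_perm {l1 l2 : List A} (hp : l1.Perm l2) : ∀ p : List A, (p ++ l1).length = k →
    (ψ (p ++ l1) = 0 ↔ ψ (p ++ l2) = 0) := by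
  induction hp with
  | nil => exact fun p _ => Iff.rfl
  | cons a _ ih =>
    intro p hpk
    have := ih (p ++ [a]) (by simpa [List.append_assoc] using hpk)
    simpa [List.append_assoc] using this
  | swap a b l =>
    intro p hpk
    rw [hψ.swap p b a l hpk, neg_eq_zero]
  | trans h1 _ ih1 ih2 =>
    intro p hpk
    refine (ih1 p hpk).trans (ih2 p ?_)
    rw [← hpk, List.length_append, List.length_append, h1.length_eq]

lemma md_perm' {l1 l2 : List A} (hp : l1.Perm l2) (hl : l1.length = k) :
    ψ l1 = 0 ↔ ψ l2 = 0 := by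
  have := md_perm hψ hp [] (by simpa using hl)
  simpa using this

include h

lemma md_two (a : A) (l : List A) (hl : l.length + 2 = k) : ψ (a :: a :: l) = 0 := by
  have h1 := hψ.swap [] a a l (by simpa using hl)
  simp only [List.nil_append] at h1
  exact eq_of_two h (add_eq_zero_iff_eq_neg.mpr h1)

lemma md_dup [DecidableEq A] {l : List A} (hl : l.length = k) (hd : ¬ l.Nodup) : ψ l = 0 := by
  rw [List.nodup_iff_count_le_one] at hd
  push Not at hd
  obtain ⟨a, ha⟩ := hd
  have h1 : a ∈ l := List.count_pos_iff.mp (by omega)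
  have h2 : a ∈ l.erase a := by
    rw [← List.count_pos_iff, List.count_erase_self]
    omega
  have h3 : l.Perm (a :: a :: (l.erase a).erase a) :=
    (List.perm_cons_erase h1).trans ((List.perm_cons_erase h2).cons a)
  rw [md_perm' hψ h3 hl]
  refine md_two h hψ a _ ?_
  rw [← hl, h3.length_eq]
  simp

omit h in
lemma md_zero (l : List A) (hl : l.length + 1 = k) : ψ (0 :: l) = 0 := by
  have := hψ.add 0 0 l hl
  rw [add_zero] at this
  exact left_eq_add.mp this

/-- all alternating multiderivations of arity `k > m` vanish on a ring with `m` generators -/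
lemma md_vanish {m : ℕ} (x : Fin m → A)
    (hgen : ∀ S : AddSubgroup A, (∀ i, x i ∈ S) → (∀ a ∈ S, ∀ b ∈ S, a * b ∈ S) → S = ⊤)
    (hk : m < k) (l : List A) (hl : l.length = k) : ψ l = 0 := by
  classical
  have key : ∀ (l1 : List A) (l2 : List (Fin m)), l1.length + l2.length = k →
      ψ (l1 ++ l2.map x) = 0 := by
    intro l1
    induction l1 with
    | nil =>
      intro l2 hl2
      refine md_dup h hψ (by simpa using hl2) ?_
      intro hn
      have h1 : l2.Nodup := by
        have := List.Nodup.of_map x (by simpa using hn)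
        exact this
      have h2 := h1.length_le_card
      simp only [List.length_nil, zero_add] at hl2
      rw [Fintype.card_fin] at h2
      omega
    | cons a l1 ih =>
      intro l2 hl2
      have hlen : (l1 ++ l2.map x).length + 1 = k := by
        simp only [List.length_append, List.length_map]
        simp only [List.length_cons] at hl2
        omega
      let S : AddSubgroup A :=
        { carrier := {a | ψ (a :: (l1 ++ l2.map x)) = 0}
          zero_mem' := md_zero hψ _ hlen
          add_mem' := by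
            intro a b ha hb
            change ψ ((a + b) :: _) = 0
            rw [hψ.add a b _ hlen]
            rw [show ψ (a :: (l1 ++ l2.map x)) = 0 from ha,
              show ψ (b :: (l1 ++ l2.map x)) = 0 from hb, add_zero]
          neg_mem' := by
            intro a ha
            change ψ (-a :: _) = 0
            have h1 := hψ.add a (-a) _ hlen
            rw [add_neg_cancel, md_zero hψ _ hlen,
              show ψ (a :: (l1 ++ l2.map x)) = 0 from ha, zero_add] at h1
            exact h1.symm }
      have hS : S = ⊤ := by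
        refine hgen S (fun i => ?_) (fun a ha b hb => ?_)
        · change ψ (x i :: (l1 ++ l2.map x)) = 0
          have hp : (x i :: (l1 ++ l2.map x)).Perm (l1 ++ (i :: l2).map x) := by
            rw [List.map_cons]
            exact List.perm_middle.symm
          rw [md_perm' hψ hp (by simpa using hlen)]
          exact ih (i :: l2) (by simp only [List.length_cons] at hl2 ⊢; omega)
        · change ψ ((a * b) :: _) = 0
          rw [hψ.der a b _ hlen, show ψ (a :: (l1 ++ l2.map x)) = 0 from ha,
            show ψ (b :: (l1 ++ l2.map x)) = 0 from hb, mul_zero, mul_zero, add_zero]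
      have : a ∈ S := by rw [hS]; trivial
      exact this
  have := key l [] (by simpa using hl)
  simpa using this

end md

section gen

variable {A : Type} [NonUnitalNonAssocRing A] {m : ℕ}

/-- words in the generators -/
def lw (x : Fin m → A) (l : List (Fin m)) (a : A) : A := l.foldr (fun i b => x i * b) a

lemma lw_nil (x : Fin m → A) (a : A) : lw x [] a = a := rfl

lemma lw_cons (x : Fin m → A) (i : Fin m) (l : List (Fin m)) (a : A) :
    lw x (i :: l) a = x i * lw x l a := rfl

lemma lw_append (x : Fin m → A) (l1 l2 : List (Fin m)) (a : A) :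
    lw x (l1 ++ l2) a = lw x l1 (lw x l2 a) := by
  unfold lw; rw [List.foldr_append]

/-- span of the words of length at least `n` -/
def G (x : Fin m → A) (n : ℕ) : AddSubgroup A :=
  AddSubgroup.closure {c | ∃ l : List (Fin m), ∃ i, n ≤ l.length ∧ c = lw x l (x i)}

/-- the generators generate -/
def Gen (x : Fin m → A) : Prop :=
  ∀ S : AddSubgroup A, (∀ i, x i ∈ S) → (∀ a ∈ S, ∀ b ∈ S, a * b ∈ S) → S = ⊤

lemma mem_G (x : Fin m → A) {n : ℕ} (l : List (Fin m)) (i : Fin m) (hl : n ≤ l.length) :
    lw x l (x i) ∈ G x n := AddSubgroup.subset_closure ⟨l, i, hl, rfl⟩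

lemma G_le {x : Fin m → A} {n : ℕ} {W : AddSubgroup A}
    (hW : ∀ l : List (Fin m), ∀ i, n ≤ l.length → lw x l (x i) ∈ W) : G x n ≤ W := by
  unfold G
  rw [AddSubgroup.closure_le]
  rintro c ⟨l, i, hl, rfl⟩
  exact hW l i hl

lemma G_anti (x : Fin m → A) {n k : ℕ} (hnk : n ≤ k) : G x k ≤ G x n :=
  G_le fun l i hl => mem_G x l i (hnk.trans hl)

lemma x_mul_G (x : Fin m → A) (j : Fin m) (n : ℕ) : ∀ w ∈ G x n, x j * w ∈ G x (n + 1) := by
  intro w hw
  unfold G at hw
  induction hw using AddSubgroup.closure_induction with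
  | mem e he =>
    obtain ⟨l, i, hl, rfl⟩ := he
    exact mem_G x (j :: l) i (by simpa using hl)
  | zero => rw [mul_zero]; exact AddSubgroup.zero_mem _
  | add x y _ _ hx hy => rw [mul_add]; exact AddSubgroup.add_mem _ hx hy
  | neg x _ hx => rw [mul_neg]; exact AddSubgroup.neg_mem _ hx

variable (h : CA A) {x : Fin m → A} (hgen : Gen x)
include h hgen

lemma mul_G (c : A) (n : ℕ) : ∀ w ∈ G x n, c * w ∈ G x (n + 1) := by
  let S : AddSubgroup A :=
    { carrier := {c | ∀ n, ∀ w ∈ G x n, c * w ∈ G x (n + 1)}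
      zero_mem' := fun n w _ => by rw [zero_mul]; exact AddSubgroup.zero_mem _
      add_mem' := fun ha hb n w hw => by
        rw [add_mul]; exact AddSubgroup.add_mem _ (ha n w hw) (hb n w hw)
      neg_mem' := fun ha n w hw => by
        rw [neg_mul]; exact AddSubgroup.neg_mem _ (ha n w hw) }
  have hS : S = ⊤ := by
    refine hgen S (fun i n w hw => x_mul_G x i n w hw) (fun a ha b hb n w hw => ?_)
    rw [mul_l h]
    refine AddSubgroup.sub_mem _ (AddSubgroup.neg_mem _ ?_) ?_
    · exact G_anti x (Nat.le_succ _) (ha _ _ (hb _ _ hw))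
    · exact G_anti x (Nat.le_succ _) (hb _ _ (ha _ _ hw))
  have : c ∈ S := by rw [hS]; trivial
  exact this n

lemma G_id (n : ℕ) : IsId (G x n) := fun a b hb => G_anti x (Nat.le_succ _) (mul_G h hgen a n b hb)

lemma G_top : G x 0 = ⊤ :=
  hgen _ (fun i => mem_G x [] i (Nat.zero_le _)) (fun a _ b hb =>
    G_anti x (Nat.zero_le _) (mul_G h hgen a 0 b hb))

omit h hgen in
lemma G_le_of {J : AddSubgroup A} (hJ : IsId J) {n : ℕ}
    (hl : ∀ l : List (Fin m), l.length = n → ∀ i, lw x l (x i) ∈ J) : G x n ≤ J := by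
  have key : ∀ (p : List (Fin m)) (a : A), a ∈ J → lw x p a ∈ J := by
    intro p
    induction p with
    | nil => exact fun a ha => ha
    | cons i p ih => exact fun a ha => hJ _ _ (ih a ha)
  refine G_le fun l i hn => ?_
  have e : l = l.take (l.length - n) ++ l.drop (l.length - n) := (List.take_append_drop _ _).symm
  rw [e, lw_append]
  refine key _ _ (hl _ ?_ i)
  rw [List.length_drop]
  omega

/-- primeness of a just non nilpotent ring -/
lemma prime (hcube : ∀ a : A, a * (a * a) = 0) (hnn : ∀ n, G x n ≠ ⊥)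
    (hmax : ∀ K : AddSubgroup A, IsId K → K ≠ ⊥ → ∃ n, G x n ≤ K) {K1 K2 : AddSubgroup A}
    (h1 : IsId K1) (h2 : IsId K2) (h12 : ∀ a ∈ K1, ∀ b ∈ K2, a * b = 0) : K1 = ⊥ ∨ K2 = ⊥ := by
  by_contra hcon
  push Not at hcon
  obtain ⟨n1, hn1⟩ := hmax K1 h1 hcon.1
  obtain ⟨n2, hn2⟩ := hmax K2 h2 hcon.2
  set n := max n1 n2 with hn
  set E := G x n with hE
  have hE1 : E ≤ K1 := (G_anti x (le_max_left _ _)).trans hn1
  have hE2 : E ≤ K2 := (G_anti x (le_max_right _ _)).trans hn2
  have hEid : IsId E := G_id h hgen n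
  have step : ∀ k, Act (G x (k + 1)) E → Act (G x k) E := by
    intro k hk
    have hfin : ({c | ∃ l : List (Fin m), ∃ i, l.length = k ∧ c = lw x l (x i)} : Set A).Finite := by
      have h3 : (Set.univ : Set (List.Vector (Fin m) k × Fin m)).Finite := Set.finite_univ
      refine (h3.image fun p => lw x p.1.toList (x p.2)).subset ?_
      rintro c ⟨l, i, hl, rfl⟩
      exact ⟨⟨⟨l, hl⟩, i⟩, trivial, rfl⟩
    have key : ∀ T : Set A, T.Finite → T ⊆ G x k →
        Act (G x (k + 1) ⊔ AddSubgroup.closure T) E := by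
      intro T hT
      induction T, hT using Set.Finite.induction_on with
      | empty =>
        intro _
        rwa [AddSubgroup.closure_empty, sup_bot_eq]
      | insert _ _ ih =>
        rename_i a T _ _
        intro hT
        have hT' : T ⊆ G x k := fun y hy => hT (Set.mem_insert_of_mem _ hy)
        have ha : a ∈ G x k := hT (Set.mem_insert _ _)
        have hV : IsId (G x (k + 1) ⊔ AddSubgroup.closure T) := by
          intro b c hc
          have hc' : c ∈ G x k := by
            have : G x (k + 1) ⊔ AddSubgroup.closure T ≤ G x k :=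
              sup_le (G_anti x (Nat.le_succ _)) ((AddSubgroup.closure_le _).mpr hT')
            exact this hc
          exact (le_sup_left : G x (k + 1) ≤ _) (mul_G h hgen b k c hc')
        have h4 := act_step h hcube hV hEid (ih hT') a
        rwa [sup_assoc, AddSubgroup.zmultiples_eq_closure, ← AddSubgroup.closure_union,
          Set.union_comm, ← Set.insert_eq] at h4
    have h5 := key _ hfin (by
      rintro c ⟨l, i, hl, rfl⟩
      exact mem_G x l i hl.ge)
    obtain ⟨s, hs⟩ := h5
    refine ⟨s, le_bot_iff.mp ((ch_mono ?_ le_rfl s).trans hs.le)⟩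
    refine G_le fun l i hl => ?_
    rcases Nat.eq_or_lt_of_le hl with h6 | h6
    · exact (le_sup_right : AddSubgroup.closure _ ≤ _)
        (AddSubgroup.subset_closure ⟨l, i, h6.symm, rfl⟩)
    · exact (le_sup_left : G x (k + 1) ≤ _) (mem_G x l i h6)
  have hbase : Act E E := by
    refine ⟨1, ?_⟩
    change pr E E = ⊥
    rw [eq_bot_iff]
    refine pr_le fun v hv e he => ?_
    rw [h12 v (hE1 hv) e (hE2 he)]
    exact AddSubgroup.zero_mem _
  have hall : ∀ j ≤ n, Act (G x (n - j)) E := by
    intro j
    induction j with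
    | zero => exact fun _ => hbase
    | succ j ih =>
      intro hj
      apply step
      rw [show n - (j + 1) + 1 = n - j by omega]
      exact ih (by omega)
  have htop := hall n le_rfl
  rw [Nat.sub_self, G_top h hgen] at htop
  obtain ⟨s, hs⟩ := htop
  have hle : ∀ s, G x (n + s) ≤ ch ⊤ E s := by
    intro s
    induction s with
    | zero => exact le_rfl
    | succ s ih =>
      change _ ≤ pr ⊤ (ch ⊤ E s)
      refine G_le fun l i hl => ?_
      rcases l with _ | ⟨j, l⟩
      · simp at hl
      · rw [lw_cons]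
        refine mem_pr trivial (ih (mem_G x l i ?_))
        simp only [List.length_cons] at hl
        omega
  exact hnn (n + s) (le_bot_iff.mp ((hle s).trans hs.le))

/-- a ring, not nilpotent, all proper quotients nilpotent, does not exist -/
theorem no_just (CC : CCStmt) (hcube : ∀ a : A, a * (a * a) = 0) (hnn : ∀ n, G x n ≠ ⊥)
    (hmax : ∀ K : AddSubgroup A, IsId K → K ≠ ⊥ → ∃ n, G x n ≤ K) : False := by
  have hprime := @prime A _ m h x hgen hcube hnn hmax
  -- nuclear elements of square zero
  have nuc0 : ∀ g : A, (∀ a b, asc g a b = 0) → g * g = 0 → g = 0 := by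
    intro g hg hgg
    have hn : ∀ a b, g * a * b = g * (a * b) := fun a b => sub_eq_zero.mp (hg a b)
    let I : AddSubgroup A :=
      { carrier := {c | ∃ (k : ℤ) (a : A), c = k • g + g * a}
        zero_mem' := ⟨0, 0, by simp⟩
        add_mem' := by
          rintro _ _ ⟨k, a, rfl⟩ ⟨k', a', rfl⟩
          exact ⟨k + k', a + a', by rw [add_smul, mul_add]; abel⟩
        neg_mem' := by
          rintro _ ⟨k, a, rfl⟩
          exact ⟨-k, -a, by rw [neg_smul, mul_neg]; abel⟩ }
    have hI : IsId I := by
      rintro b _ ⟨k, a, rfl⟩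
      refine ⟨0, k • b + a * b, ?_⟩
      rw [mul_add, mul_smul_comm, h.comm b g, h.comm b (g * a), hn, zero_smul, zero_add, mul_add,
        mul_smul_comm]
    have hII : ∀ a ∈ I, ∀ b ∈ I, a * b = 0 := by
      rintro _ ⟨k, a, rfl⟩ _ ⟨k', a', rfl⟩
      have e1 : g * (g * a') = 0 := by rw [← hn, hgg, zero_mul]
      have e2 : g * a * g = 0 := by rw [hn, h.comm a g, ← hn, hgg, zero_mul]
      have e3 : g * a * (g * a') = 0 := by
        rw [hn, h.comm a (g * a'), hn, ← hn, hgg, zero_mul]
      rw [add_mul, mul_add, mul_add, smul_mul_assoc, smul_mul_assoc, mul_smul_comm, mul_smul_comm,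
        hgg, e1, e2, e3]
      simp
    rcases hprime hI hI hII with h0 | h0
    · have : g ∈ I := ⟨1, 0, by simp⟩
      rw [h0] at this
      exact this
    · have : g ∈ I := ⟨1, 0, by simp⟩
      rw [h0] at this
      exact this
  have nuc : ∀ g : A, (∀ a b, asc g a b = 0) → g = 0 := by
    intro g hg
    apply nuc0 g hg
    apply nuc0 (g * g)
    · intro a b
      rw [asc_mul1 h, hg, mul_zero, add_zero]
    · have : g * g * (g * g) = g * (g * (g * g)) := sub_eq_zero.mp (hg g (g * g))
      rw [this, hcube, mul_zero]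
  have hne : ∃ a b c : A, asc a b c ≠ 0 := by
    by_contra hcon
    push Not at hcon
    apply hnn 0
    rw [G_top h hgen, eq_bot_iff]
    intro g _
    exact nuc g fun a b => hcon g a b
  have h2t : ∀ x : A, 2 • x = 0 → x = 0 := by
    intro y hy
    rw [two_nsmul] at hy
    exact eq_of_two h hy
  have ann : ∀ g : A, (∀ a b c, g * asc a b c = 0) → g = 0 := by
    let K : AddSubgroup A :=
      { carrier := {g | ∀ a b c, g * asc a b c = 0}
        zero_mem' := fun a b c => zero_mul _
        add_mem' := fun ha hb a b c => by rw [add_mul, ha, hb, add_zero]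
        neg_mem' := fun ha a b c => by rw [neg_mul, ha, neg_zero] }
    have hK2 : ∀ g ∈ K, ∀ a x y z, g * (a * asc x y z) = 0 := by
      intro g hg
      refine h51_ann h.alt h2t g hg fun x y z => ?_
      rw [h.comm]
      exact hg x y z
    have hKid : IsId K := by
      intro a g hg b c d
      rw [mul_l h, hg, mul_zero, hK2 g hg, neg_zero, sub_zero]
    let T : AddSubgroup A := AddSubgroup.closure
      ({c | ∃ x y z, c = asc x y z} ∪ {c | ∃ a x y z, c = a * asc x y z})
    have hTid : IsId T := by
      intro b c hc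
      induction hc using AddSubgroup.closure_induction with
      | mem c hc =>
        rcases hc with ⟨x, y, z, rfl⟩ | ⟨a, x, y, z, rfl⟩
        · exact AddSubgroup.subset_closure (Or.inr ⟨b, x, y, z, rfl⟩)
        · have e : b * (a * asc x y z) = b * a * asc x y z - asc b a (asc x y z) := by
            change _ = b * a * asc x y z - (b * a * asc x y z - b * (a * asc x y z))
            abel
          rw [e]
          exact AddSubgroup.sub_mem _ (AddSubgroup.subset_closure (Or.inr ⟨b * a, x, y, z, rfl⟩))
            (AddSubgroup.subset_closure (Or.inl ⟨b, a, asc x y z, rfl⟩))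
      | zero => rw [mul_zero]; exact AddSubgroup.zero_mem _
      | add x y _ _ hx hy => rw [mul_add]; exact AddSubgroup.add_mem _ hx hy
      | neg x _ hx => rw [mul_neg]; exact AddSubgroup.neg_mem _ hx
    have hKT : ∀ a ∈ K, ∀ b ∈ T, a * b = 0 := by
      intro g hg c hc
      induction hc using AddSubgroup.closure_induction with
      | mem c hc =>
        rcases hc with ⟨x, y, z, rfl⟩ | ⟨a, x, y, z, rfl⟩
        · exact hg x y z
        · exact hK2 g hg a x y z
      | zero => rw [mul_zero]
      | add x y _ _ hx hy => rw [mul_add, hx, hy, add_zero]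
      | neg x _ hx => rw [mul_neg, hx, neg_zero]
    rcases hprime hKid hTid hKT with h0 | h0
    · intro g hg
      have : g ∈ K := hg
      rw [h0] at this
      exact this
    · exfalso
      obtain ⟨a, b, c, habc⟩ := hne
      apply habc
      have : asc a b c ∈ T := AddSubgroup.subset_closure (Or.inl ⟨a, b, c, rfl⟩)
      rw [h0] at this
      exact this
  obtain ⟨a, b, c, habc⟩ := hne
  exact habc (CC A h nuc ann ⟨m, fun k hk ψ hψ l hl => md_vanish h hψ x hgen hk l hl⟩ a b c)

end gen

section quot

variable {A : Type} [NonUnitalNonAssocRing A]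

/-- the congruence of an ideal of a commutative ring -/
def con (hc : ∀ a b : A, a * b = b * a) (I : AddSubgroup A) (hI : IsId I) : RingCon A where
  r a b := a - b ∈ I
  iseqv :=
    { refl := fun a => by rw [sub_self]; exact AddSubgroup.zero_mem _
      symm := fun {a b} hab => by rw [← neg_sub]; exact AddSubgroup.neg_mem _ hab
      trans := fun {a b c} hab hbc => by
        rw [← sub_add_sub_cancel a b c]; exact AddSubgroup.add_mem _ hab hbc }
  add' := fun {a b c d} hab hcd => by
    rw [add_sub_add_comm]; exact AddSubgroup.add_mem _ hab hcd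
  mul' := fun {a b c d} hab hcd => by
    have : a * c - b * d = c * (a - b) + b * (c - d) := by
      rw [mul_sub, mul_sub, hc c a, hc c b]; abel
    rw [this]
    exact AddSubgroup.add_mem _ (hI _ _ hab) (hI _ _ hcd)

end quot

/-- every finitely generated commutative alternative nil ring of characteristic 3 is nilpotent -/
theorem ln_one (CC : CCStmt) {A : Type} [NonUnitalNonAssocRing A] (h : CA A)
    (hcube : ∀ a : A, a * (a * a) = 0) {m : ℕ} (x : Fin m → A) (hgen : Gen x) :
    ∃ n, G x n = ⊥ := by
  by_contra hcon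
  push Not at hcon
  have hfin : ∀ n, ({c | ∃ l : List (Fin m), ∃ i, l.length = n ∧ c = lw x l (x i)} :
      Set A).Finite := by
    intro k
    have h3 : (Set.univ : Set (List.Vector (Fin m) k × Fin m)).Finite := Set.finite_univ
    refine (h3.image fun p => lw x p.1.toList (x p.2)).subset ?_
    rintro c ⟨l, i, hl, rfl⟩
    exact ⟨⟨⟨l, hl⟩, i⟩, trivial, rfl⟩
  obtain ⟨J, -, hJ⟩ := zorn_le_nonempty₀ {I : AddSubgroup A | IsId I ∧ ∀ n, ¬ G x n ≤ I} (by
    intro c hc hchain y hy
    have hd : DirectedOn (· ≤ ·) c := hchain.directedOn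
    have hne : c.Nonempty := ⟨y, hy⟩
    refine ⟨sSup c, ⟨?_, ?_⟩, fun z hz => le_sSup hz⟩
    · intro a b hb
      rw [AddSubgroup.mem_sSup_of_directedOn hne hd] at hb ⊢
      obtain ⟨I, hI, hbI⟩ := hb
      exact ⟨I, hI, (hc hI).1 a b hbI⟩
    · intro n hn
      have key : ∀ T : Set A, T.Finite → T ⊆ (sSup c : AddSubgroup A) → ∃ I ∈ c,
          T ⊆ (I : AddSubgroup A) := by
        intro T hT
        induction T, hT using Set.Finite.induction_on with
        | empty => exact fun _ => ⟨y, hy, Set.empty_subset _⟩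
        | insert _ _ ih =>
          rename_i a T _ _
          intro hT
          obtain ⟨I1, hI1, h1⟩ := ih (fun z hz => hT (Set.mem_insert_of_mem _ hz))
          have ha := hT (Set.mem_insert a T)
          rw [SetLike.mem_coe, AddSubgroup.mem_sSup_of_directedOn hne hd] at ha
          obtain ⟨I2, hI2, h2⟩ := ha
          obtain ⟨I3, hI3, h13, h23⟩ := hd I1 hI1 I2 hI2
          refine ⟨I3, hI3, ?_⟩
          intro z hz
          rcases Set.mem_insert_iff.mp hz with rfl | hz
          · exact h23 h2
          · exact h13 (h1 hz)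
      obtain ⟨I, hI, hTI⟩ := key _ (hfin n) (by
        rintro z ⟨l, i, hl, rfl⟩
        exact hn (mem_G x l i hl.ge))
      exact (hc hI).2 n (G_le_of (hc hI).1 fun l hl i => hTI ⟨l, i, hl, rfl⟩)) ⊥ (by
    refine ⟨fun a b hb => ?_, fun n hn => hcon n (le_bot_iff.mp hn)⟩
    rw [AddSubgroup.mem_bot] at hb ⊢
    rw [hb, mul_zero])
  have hJid : IsId J := hJ.prop.1
  let c := con h.comm J hJid
  let Q := c.Quotient
  have hsurj : ∀ q : Q, ∃ a : A, (a : Q) = q := fun q => Quotient.exists_rep q
  have hzero : ∀ a : A, (a : Q) = 0 ↔ a ∈ J := by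
    intro a
    have : (a : Q) = ((0 : A) : Q) ↔ c a 0 := RingCon.eq c
    rw [RingCon.coe_zero] at this
    rw [this]
    change a - 0 ∈ J ↔ _
    rw [sub_zero]
  have hQ : CA Q := by
    refine ⟨⟨?_, ?_⟩, ?_, ?_⟩
    · intro a b
      obtain ⟨a, rfl⟩ := hsurj a
      obtain ⟨b, rfl⟩ := hsurj b
      rw [← RingCon.coe_mul, ← RingCon.coe_mul, ← RingCon.coe_mul, ← RingCon.coe_mul, h.alt.1]
    · intro a b
      obtain ⟨a, rfl⟩ := hsurj a
      obtain ⟨b, rfl⟩ := hsurj b
      rw [← RingCon.coe_mul, ← RingCon.coe_mul, ← RingCon.coe_mul, ← RingCon.coe_mul, h.alt.2]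
    · intro a b
      obtain ⟨a, rfl⟩ := hsurj a
      obtain ⟨b, rfl⟩ := hsurj b
      rw [← RingCon.coe_mul, ← RingCon.coe_mul, h.comm]
    · intro a
      obtain ⟨a, rfl⟩ := hsurj a
      rw [← RingCon.coe_add, ← RingCon.coe_add, h.three, RingCon.coe_zero]
  have hQc : ∀ a : Q, a * (a * a) = 0 := by
    intro a
    obtain ⟨a, rfl⟩ := hsurj a
    rw [← RingCon.coe_mul, ← RingCon.coe_mul, hcube, RingCon.coe_zero]
  have hlw : ∀ (l : List (Fin m)) (a : A),
      lw (fun i => ((x i : A) : Q)) l (a : Q) = ((lw x l a : A) : Q) := by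
    intro l a
    induction l with
    | nil => rfl
    | cons i l ih => rw [lw_cons, lw_cons, ih, RingCon.coe_mul]
  let co : AddSubgroup Q → AddSubgroup A := fun S =>
    { carrier := {a | (a : Q) ∈ S}
      zero_mem' := by
        change ((0 : A) : Q) ∈ S
        rw [RingCon.coe_zero]; exact S.zero_mem
      add_mem' := by
        intro a b ha hb
        change ((a + b : A) : Q) ∈ S
        rw [RingCon.coe_add]; exact S.add_mem ha hb
      neg_mem' := by
        intro a ha
        change ((-a : A) : Q) ∈ S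
        rw [RingCon.coe_neg]; exact S.neg_mem ha }
  have hgenQ : Gen (fun i => ((x i : A) : Q)) := by
    intro S hS1 hS2
    have h1 : co S = ⊤ := by
      refine hgen _ (fun i => hS1 i) (fun a ha b hb => ?_)
      change ((a * b : A) : Q) ∈ S
      rw [RingCon.coe_mul]
      exact hS2 _ ha _ hb
    rw [eq_top_iff]
    intro q _
    obtain ⟨a, rfl⟩ := hsurj q
    have : a ∈ co S := by rw [h1]; trivial
    exact this
  have hG : ∀ (n : ℕ) (S : AddSubgroup Q), G x n ≤ co S → G (fun i => ((x i : A) : Q)) n ≤ S := by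
    intro n S hn
    refine G_le fun l i hl => ?_
    have : lw x l (x i) ∈ co S := hn (mem_G x l i hl)
    rw [hlw]
    exact this
  refine no_just hQ hgenQ CC hQc (fun n hn => ?_) (fun K hK hK0 => ?_)
  · refine hJ.prop.2 n ?_
    refine G_le fun l i hl => ?_
    rw [← hzero, ← hlw]
    have := mem_G (fun i => ((x i : A) : Q)) l i hl
    rw [hn] at this
    exact this
  · have hcoid : IsId (co K) := by
      intro a b hb
      change ((a * b : A) : Q) ∈ K
      rw [RingCon.coe_mul]
      exact hK _ _ hb
    have hJle : J ≤ co K := by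
      intro a ha
      change (a : Q) ∈ K
      rw [(hzero a).mpr ha]
      exact K.zero_mem
    by_contra hcon2
    push Not at hcon2
    have hin : co K ∈ {I : AddSubgroup A | IsId I ∧ ∀ n, ¬ G x n ≤ I} :=
      ⟨hcoid, fun n hn => hcon2 n (hG n K hn)⟩
    have hle := hJ.le_of_ge hin hJle
    apply hK0
    rw [eq_bot_iff]
    intro q hq
    obtain ⟨a, rfl⟩ := hsurj q
    have : a ∈ J := hle hq
    rw [AddSubgroup.mem_bot, hzero]
    exact this

/-- monomials of degree `> n` lie in `G x n` -/
lemma lift_mem_G {A : Type} [NonUnitalNonAssocRing A] (h : CA A) {m : ℕ} (x : Fin m → A)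
    (w : FreeMagma (Fin m)) : (∀ n, ∀ v ∈ G x n, FreeMagma.lift x w * v ∈ G x (n + w.length)) ∧
      ∀ n, n + 1 ≤ w.length → FreeMagma.lift x w ∈ G x n := by
  induction w using FreeMagma.recOnMul with
  | ih1 i =>
    rw [FreeMagma.lift_of]
    refine ⟨fun n v hv => x_mul_G x i n v hv, fun n hn => ?_⟩
    have h0 : n = 0 := by
      have : (FreeMagma.of i).length = 1 := rfl
      omega
    rw [h0]
    exact mem_G x [] i le_rfl
  | ih2 a b iha ihb =>
    have hlen : (a * b).length = a.length + b.length := rfl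
    rw [map_mul, hlen]
    refine ⟨fun n v hv => ?_, fun n hn => ?_⟩
    · rw [mul_l h]
      refine AddSubgroup.sub_mem _ (AddSubgroup.neg_mem _ ?_) ?_
      · have := iha.1 _ _ (ihb.1 _ _ hv)
        rwa [show n + b.length + a.length = n + (a.length + b.length) by ring] at this
      · have := ihb.1 _ _ (iha.1 _ _ hv)
        rwa [show n + a.length + b.length = n + (a.length + b.length) by ring] at this
    · have hb1 : 1 ≤ b.length := b.length_pos
      have := iha.1 _ _ (ihb.2 (b.length - 1) (by omega))
      exact G_anti x (by omega) this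

/-- MODULE LN: local nilpotency, uniform version -/
def LNStmt : Prop :=
  ∀ m : ℕ, ∃ N : ℕ, ∀ (A : Type) [NonUnitalNonAssocRing A], CA A →
    (∀ a : A, a * (a * a) = 0) → ∀ (x : Fin m → A) (w : FreeMagma (Fin m)), N ≤ w.length →
      FreeMagma.lift x w = 0

lemma ln_two (CC : CCStmt) {A : Type} [NonUnitalNonAssocRing A] (h : CA A)
    (hcube : ∀ a : A, a * (a * a) = 0) {m : ℕ} (x : Fin m → A) :
    ∃ N : ℕ, ∀ w : FreeMagma (Fin m), N ≤ w.length → FreeMagma.lift x w = 0 := by
  let A0 : NonUnitalSubring A := NonUnitalSubring.closure (Set.range x)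
  have hx : ∀ i, x i ∈ A0 := fun i => NonUnitalSubring.subset_closure ⟨i, rfl⟩
  let y : Fin m → A0 := fun i => ⟨x i, hx i⟩
  have h0 : CA A0 := by
    refine ⟨⟨?_, ?_⟩, ?_, ?_⟩
    · exact fun a b => Subtype.ext (h.alt.1 a b)
    · exact fun a b => Subtype.ext (h.alt.2 a b)
    · exact fun a b => Subtype.ext (h.comm a b)
    · exact fun a => Subtype.ext (h.three a)
  have hgen : Gen y := by
    intro S hS1 hS2
    rw [eq_top_iff]
    rintro ⟨a, ha⟩ -
    induction ha using NonUnitalSubring.closure_induction with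
    | mem a ha =>
      obtain ⟨i, rfl⟩ := ha
      exact hS1 i
    | zero => exact S.zero_mem
    | add a b ha hb h1 h2 => exact S.add_mem h1 h2
    | neg a ha h1 => exact S.neg_mem h1
    | mul a b ha hb h1 h2 => exact hS2 _ h1 _ h2
  obtain ⟨n, hn⟩ := ln_one CC h0 (fun a => Subtype.ext (hcube a)) y hgen
  refine ⟨n + 1, fun w hw => ?_⟩
  have h1 := (lift_mem_G h0 y w).2 n hw
  rw [hn, AddSubgroup.mem_bot] at h1
  have h2 : ∀ w : FreeMagma (Fin m), ((FreeMagma.lift y w : A0) : A) = FreeMagma.lift x w := by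
    intro w
    induction w using FreeMagma.recOnMul with
    | ih1 i => rfl
    | ih2 a b iha ihb => rw [map_mul, map_mul, ← iha, ← ihb]; rfl
  rw [← h2, h1]
  rfl

theorem ln (CC : CCStmt) : LNStmt := by
  intro m
  by_contra hcon
  push Not at hcon
  choose A inst h hcube x w hw hne using hcon
  let _ : ∀ N, NonUnitalNonAssocRing (A N) := inst
  have hP : CA (∀ N, A N) := by
    refine ⟨⟨?_, ?_⟩, ?_, ?_⟩
    · exact fun a b => funext fun N => (h N).alt.1 (a N) (b N)
    · exact fun a b => funext fun N => (h N).alt.2 (a N) (b N)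
    · exact fun a b => funext fun N => (h N).comm (a N) (b N)
    · exact fun a => funext fun N => (h N).three (a N)
  obtain ⟨n, hn⟩ := ln_two CC hP (fun a => funext fun N => hcube N (a N))
    (fun i N => x N i)
  have h1 := hn (w n) (hw n)
  have h2 : ∀ w : FreeMagma (Fin m), ∀ N,
      (FreeMagma.lift (fun i N => x N i) w : ∀ N, A N) N = FreeMagma.lift (x N) w := by
    intro w N
    induction w using FreeMagma.recOnMul with
    | ih1 i => rfl
    | ih2 a b iha ihb => rw [map_mul, map_mul, ← iha, ← ihb]; rfl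
  apply hne n
  rw [← h2, h1]
  rfl

end LN

end Pool.Agent.TP
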