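import Pool.Agent.Helper59_TP3.FF5
import Pool.Agent.Helper59_TP3.LN

/-!
# MP_ce3ba7_al, characteristic 3, modules FF and LN in the form of Helper57_C3/Stmts (helper59)
-/

set_option autoImplicit false
set_option linter.unusedSectionVars false
set_option linter.unusedVariables false

namespace Pool.Agent.TP

namespace FF

open Function H67 H52
open scoped TensorProduct

section tensor

variable {F : Type} [Field F] {B : Type} [NonUnitalNonAssocRing B] [Module F B]
  [IsScalarTower F B B] [SMulCommClass F B B] (K : Type) [Field K] [Algebra F K]

/-- the embedding of `B` -/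
noncomputable def jt : B →ₙₐ[F] (K ⊗[F] B) where
  toFun b := 1 ⊗ₜ b
  map_smul' c b := TensorProduct.tmul_smul c 1 b
  map_zero' := TensorProduct.tmul_zero _ _
  map_add' a b := TensorProduct.tmul_add 1 a b
  map_mul' a b := by
    rw [Algebra.TensorProduct.tmul_mul_tmul, one_mul]

lemma jt_inj (b : B) (h : jt (F := F) K b = 0) : b = 0 := by
  have h1 : Function.Injective fun b : B => (1 : K) ⊗ₜ[F] b :=
    Module.FaithfullyFlat.tensorProduct_mk_injective (A := F) (B := K) B
  have h2 : (1 : K) ⊗ₜ[F] b = (1 : K) ⊗ₜ[F] (0 : B) := by
    rw [TensorProduct.tmul_zero]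
    exact h
  exact h1 h2

lemma jt_span : Submodule.span K (Set.range (jt (B := B) (F := F) K)) = ⊤ := by
  rw [eq_top_iff]
  intro u _
  induction u using TensorProduct.induction_on with
  | zero => exact Submodule.zero_mem _
  | tmul k b =>
    have : k ⊗ₜ[F] b = k • jt (F := F) K b := by
      change k ⊗ₜ[F] b = k • (1 : K) ⊗ₜ[F] b
      rw [TensorProduct.smul_tmul', smul_eq_mul, mul_one]
    rw [this]
    exact Submodule.smul_mem _ _ (Submodule.subset_span ⟨b, rfl⟩)
  | add x y hx hy => exact Submodule.add_mem _ (hx trivial) (hy trivial)

lemma comm_mul (u v : K ⊗[F] B) : TensorProduct.comm F K B (u * v) =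
    TensorProduct.comm F K B u * TensorProduct.comm F K B v := by
  induction u using TensorProduct.induction_on with
  | zero => rw [zero_mul, map_zero, zero_mul]
  | tmul k b =>
    induction v using TensorProduct.induction_on with
    | zero => rw [mul_zero, map_zero, mul_zero]
    | tmul l c =>
      rw [Algebra.TensorProduct.tmul_mul_tmul, TensorProduct.comm_tmul, TensorProduct.comm_tmul,
        TensorProduct.comm_tmul, Algebra.TensorProduct.tmul_mul_tmul]
    | add x y hx hy => rw [mul_add, map_add, map_add, mul_add, hx, hy]
  | add x y hx hy => rw [add_mul, map_add, map_add, add_mul, hx, hy]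

end tensor

/-- relabelling of a monomial -/
lemma lets_relabel (σ : ℕ → ℕ) (w : FreeMagma ℕ) :
    C3.lv (FreeMagma.lift (fun i => FreeMagma.of (σ i)) w) = (lets w).map σ := by
  induction w using FreeMagma.recOnMul with
  | ih1 i => rfl
  | ih2 a b iha ihb =>
    rw [map_mul]
    change C3.lv _ + C3.lv _ = _
    rw [iha, ihb, lets_mul, Multiset.map_add]

lemma lift_relabel {A : Type} [Mul A] (σ : ℕ → ℕ) (φ : ℕ → A) (w : FreeMagma ℕ) :
    FreeMagma.lift φ (FreeMagma.lift (fun i => FreeMagma.of (σ i)) w) =
      FreeMagma.lift (fun i => φ (σ i)) w := by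
  induction w using FreeMagma.recOnMul with
  | ih1 i => rfl
  | ih2 a b iha ihb => rw [map_mul, map_mul, map_mul, iha, ihb]

/-- MODULE FF -/
theorem ff : C3.FFStmt := by
  classical
  intro F _ S hS B _ _ _ _ x h hLN
  obtain ⟨A, T, c, hT, hc, hid⟩ := exists_ml (K := AlgebraicClosure F) hS h (jt (AlgebraicClosure F))
    (jt_inj _) (jt_span _) (fun m => by
      obtain ⟨N, hN⟩ := hLN m
      refine ⟨N, fun y w hw => ?_⟩
      have h1 := hN (AlgebraicClosure F)
        (fun i => TensorProduct.comm F (AlgebraicClosure F) B (y i)) w hw
      have h2 : ∀ w : FreeMagma (Fin m),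
          FreeMagma.lift (fun i => TensorProduct.comm F (AlgebraicClosure F) B (y i)) w =
          TensorProduct.comm F (AlgebraicClosure F) B (FreeMagma.lift y w) := by
        intro w
        induction w using FreeMagma.recOnMul with
        | ih1 i => rfl
        | ih2 a b iha ihb => rw [map_mul, map_mul, iha, ihb, comm_mul]
      rw [h2] at h1
      exact (LinearEquiv.map_eq_zero_iff _).mp h1)
  set n := A.card with hn
  -- the relabelling
  let e : A ≃ Fin n := A.equivFin
  let σ : ℕ → ℕ := fun i => if hi : i ∈ A then (e ⟨i, hi⟩ : ℕ) else 0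
  have hσ : A.val.map σ = Multiset.range n := by
    have h1 : A.val = Multiset.map (fun a : A => (a : ℕ)) (Finset.univ : Finset A).val := by
      have : A.attach.val.map Subtype.val = A.val := by
        rw [Finset.attach_val]
        exact Multiset.attach_map_val _
      rw [← this]
      rfl
    rw [h1, Multiset.map_map]
    have h2 : (σ ∘ fun a : A => (a : ℕ)) = (fun i : Fin n => (i : ℕ)) ∘ e := by
      funext a
      change σ a = _
      rw [show σ (a : ℕ) = (e ⟨a, a.2⟩ : ℕ) from dif_pos a.2]
      rfl
    rw [h2, ← Multiset.map_map]
    have h3 : Multiset.map e (Finset.univ : Finset A).val = (Finset.univ : Finset (Fin n)).val := by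
      have := congrArg Finset.val (Finset.map_univ_equiv e)
      rw [Finset.map_val] at this
      exact this
    rw [h3]
    have h4 : Multiset.map (fun i : Fin n => (i : ℕ)) (Finset.univ : Finset (Fin n)).val =
        (Finset.range n).val := by
      have h5 := congrArg Finset.val (Fin.map_valEmbedding_univ (n := n))
      rw [Finset.map_val, Nat.Iio_eq_range] at h5
      exact h5
    rw [h4]
    rfl
  set s := ∑ w ∈ T, c w with hs
  let re : FreeMagma ℕ → FreeMagma ℕ := fun w => FreeMagma.lift (fun i => FreeMagma.of (σ i)) w
  refine ⟨n, ∑ w ∈ T, (s⁻¹ * c w) • mo F (re w), ?_, ?_, ?_⟩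
  · intro w hw
    have h1 : (∑ w ∈ T, (s⁻¹ * c w) • mo F (re w)).coeff.support ⊆ T.image re := by
      intro v hv
      by_contra hv2
      rw [Finsupp.mem_support_iff] at hv
      apply hv
      rw [MonoidAlgebra.coeff_sum, Finsupp.finsetSum_apply]
      refine Finset.sum_eq_zero fun w hw => ?_
      rw [mo, MonoidAlgebra.smul_single, MonoidAlgebra.coeff_single, Finsupp.single_apply, if_neg]
      rintro rfl
      exact hv2 (Finset.mem_image_of_mem _ hw)
    obtain ⟨v, hv, rfl⟩ := Finset.mem_image.mp (h1 hw)
    rw [lets_relabel, hT v hv, hσ]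
  · have hlin : ∀ f : Fr F, (f.coeff.sum fun _ c => c) =
        Finsupp.linearCombination F (fun _ : FreeMagma ℕ => (1 : F)) f.coeff := by
      intro f
      rw [Finsupp.linearCombination_apply]
      simp
    rw [hlin, MonoidAlgebra.coeff_sum, map_sum]
    have h1 : ∀ w ∈ T, Finsupp.linearCombination F (fun _ : FreeMagma ℕ => (1 : F))
        ((s⁻¹ * c w) • mo F (re w)).coeff = s⁻¹ * c w := by
      intro w _
      rw [mo, MonoidAlgebra.smul_single, MonoidAlgebra.coeff_single, Finsupp.linearCombination_single]
      simp
    rw [Finset.sum_congr rfl h1, ← Finset.mul_sum, ← hs, inv_mul_cancel₀ hc]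
  · intro φ
    change ev φ (∑ w ∈ T, (s⁻¹ * c w) • mo F (re w)) = 0
    rw [map_sum]
    have h1 : ∀ w ∈ T, ev φ ((s⁻¹ * c w) • mo F (re w)) =
        s⁻¹ • c w • FreeMagma.lift (fun i => φ (σ i)) w := by
      intro w _
      rw [map_smul, ev_mo, lift_relabel, smul_smul]
    rw [Finset.sum_congr rfl h1, ← Finset.smul_sum, hid, smul_zero]

end FF

namespace LN

/-- MODULE LN from MODULE CC, statements of Helper57_C3 -/
theorem ln57 (CC : C3.CCStmt) : C3.LNStmt := by
  have hCC : CCStmt := by
    intro A inst h hnuc hann ⟨M, hM⟩
    let _ : NonUnitalNonAssocCommRing A := { inst with mul_comm := h.comm }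
    refine CC A (fun _ _ => True) ⟨h.three, h.alt.1⟩ ⟨?_, ?_, ?_, ?_, ?_, ?_⟩ hnuc
      (fun g h1 _ => hann g h1) ⟨M + 1, fun m hm ι _ _ hι ψ _ hψ z => ?_⟩
    · intros; trivial
    · intros; trivial
    · intros; trivial
    · intros; trivial
    · intros; trivial
    · intros; trivial
    · -- an alternating multiderivation on functions gives one on lists
      classical
      let e : ι ≃ Fin m := Fintype.equivFinOfCardEq hι
      let Ψ : List A → A := fun l => ψ fun i => l.getD (e i : ℕ) 0
      have upd : ∀ (l : List A) (k : ℕ) (hk : k < m) (a : A) (hl : k < l.length),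
          (fun i => (l.set k a).getD (e i : ℕ) 0) =
            Function.update (fun i => l.getD (e i : ℕ) 0) (e.symm ⟨k, hk⟩) a := by
        intro l k hk a hl
        funext i
        by_cases hi : i = e.symm ⟨k, hk⟩
        · subst hi
          rw [Function.update_self, Equiv.apply_symm_apply, List.getD_eq_getElem?_getD,
            List.getElem?_set_self hl]
          rfl
        · rw [Function.update_of_ne hi, List.getD_eq_getElem?_getD, List.getD_eq_getElem?_getD,
            List.getElem?_set_ne]
          intro h2
          apply hi
          rw [Equiv.eq_symm_apply]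
          exact Fin.ext h2.symm
      have swapψ : ∀ (z : ι → A) (i j : ι) (a b : A), i ≠ j →
          ψ (Function.update (Function.update z i a) j b) =
            - ψ (Function.update (Function.update z i b) j a) := by
        intro z i j a b hij
        have hA : ∀ c c' d : A, ψ (Function.update (Function.update z i (c + c')) j d) =
            ψ (Function.update (Function.update z i c) j d) +
              ψ (Function.update (Function.update z i c') j d) := by
          intro c c' d
          have e : ∀ c : A, Function.update (Function.update z i c) j d =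
              Function.update (Function.update z j d) i c := fun c =>
            Function.update_comm hij c d z
          rw [e, e, e, hψ.add]
        have hz : ∀ c : A, ψ (Function.update (Function.update z i c) j c) = 0 := by
          intro c
          refine hψ.alt _ i j hij ?_
          rw [Function.update_of_ne hij, Function.update_self, Function.update_self]
        have h1 := hz (a + b)
        rw [hA, hψ.add, hψ.add, hz, hz, zero_add, add_zero] at h1
        exact eq_neg_of_add_eq_zero_left h1
      have hΨ : IsMD m Ψ := by
        refine ⟨fun l1 a b l2 hl => ?_, fun a b l hl => ?_, fun a b l hl => ?_⟩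
        · -- swap
          have hk : l1.length < m := by rw [← hl]; simp
          have hk2 : l1.length + 1 < m := by
            rw [← hl, List.length_append, List.length_cons, List.length_cons]; omega
          have e1 : l1 ++ a :: b :: l2 =
              ((l1 ++ a :: b :: l2).set l1.length a).set (l1.length + 1) b := by
            simp
          have e2 : l1 ++ b :: a :: l2 =
              ((l1 ++ a :: b :: l2).set l1.length b).set (l1.length + 1) a := by
            simp
          have h3 : ∀ c d : A, Ψ (((l1 ++ a :: b :: l2).set l1.length c).set (l1.length + 1) d) =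
              ψ (Function.update (Function.update (fun i => (l1 ++ a :: b :: l2).getD (e i : ℕ) 0)
                (e.symm ⟨l1.length, hk⟩) c) (e.symm ⟨l1.length + 1, hk2⟩) d) := by
            intro c d
            change ψ _ = _
            rw [upd _ _ hk2 _ (by rw [List.length_set, hl]; exact hk2), upd _ _ hk _
              (by rw [hl]; exact hk)]
          have e3 : Ψ (l1 ++ a :: b :: l2) = _ := (congrArg Ψ e1).trans (h3 a b)
          have e4 : Ψ (l1 ++ b :: a :: l2) = _ := (congrArg Ψ e2).trans (h3 b a)
          rw [e3, e4]
          refine swapψ _ _ _ _ _ ?_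
          intro h4
          have h5 := e.symm.injective h4
          have h6 := congrArg Fin.val h5
          simp at h6
        · have hm0 : 0 < m := by omega
          have h3 : ∀ c : A, Ψ (c :: l) = ψ (Function.update
              (fun i => (a :: l).getD (e i : ℕ) 0) (e.symm ⟨0, hm0⟩) c) := by
            intro c
            have : c :: l = (a :: l).set 0 c := rfl
            change ψ (fun i => (c :: l).getD (e i : ℕ) 0) = _
            rw [this, upd _ _ hm0 _ (by simp)]
          rw [h3, h3 a, h3 b, hψ.add]
        · have hm0 : 0 < m := by omega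
          have h3 : ∀ c : A, Ψ (c :: l) = ψ (Function.update
              (fun i => (a :: l).getD (e i : ℕ) 0) (e.symm ⟨0, hm0⟩) c) := by
            intro c
            have : c :: l = (a :: l).set 0 c := rfl
            change ψ (fun i => (c :: l).getD (e i : ℕ) 0) = _
            rw [this, upd _ _ hm0 _ (by simp)]
          rw [h3, h3 a, h3 b, hψ.leib]
      have h4 := hM m (by omega) Ψ hΨ (List.ofFn fun i : Fin m => z (e.symm i)) (by simp)
      have h5 : Ψ (List.ofFn fun i : Fin m => z (e.symm i)) = ψ z := by
        change ψ _ = ψ z
        congr 1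
        funext i
        rw [List.getD_eq_getElem?_getD, List.getElem?_ofFn, dif_pos (e i).2]
        simp
      rw [← h5]
      exact h4
  intro M
  obtain ⟨N, hN⟩ := ln hCC M
  refine ⟨N, fun B _ hB hc a w hw => ?_⟩
  refine hN B ⟨⟨hB.alt, fun x y => ?_⟩, mul_comm, hB.three⟩ hc a w hw
  rw [mul_comm (y * x) x, mul_comm y x, ← hB.alt, mul_comm]

end LN

end Pool.Agent.TP
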