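import Pool.Agent.Helper67_TP.Prime

/-!
# A maximal T-ideal and Lemma Q (helper59), for MP_ce3ba7_al in characteristic 2 and 3

If the variety is not solvable there is a relatively free algebra `B` of the variety, not solvable,
all of whose proper quotients by T-ideals are solvable. Lemma Q: a polynomial which vanishes on a
subalgebra containing all values of a derived word vanishes on `B`.
-/

set_option autoImplicit false
set_option linter.style.haveILetI false

namespace Pool.Agent.TP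

open H67

section
variable (F : Type) [Field F] (S : Set (MonoidAlgebra F (FreeMagma ℕ)))
variable (B : Type) [NonUnitalNonAssocRing B] [Module F B] [IsScalarTower F B B]
  [SMulCommClass F B B]

/-- A relatively free algebra of the variety, not solvable, with all proper T-quotients
solvable. -/
structure MaxAlg (x : ℕ → B) : Prop where
  /-- relatively free -/
  rel : RelFree F B x
  /-- generated by `x` -/
  gen : ∀ b : B, ∃ f : MonoidAlgebra F (FreeMagma ℕ),
    MonoidAlgebra.liftMagma F (FreeMagma.lift x) f = b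
  alt : IsAlt B
  sat : Sat F S B
  prime : TPrime F B
  nsol : ∀ n, ¬ SolvN F n B
  /-- derived words do not vanish on the generators -/
  nd : ∀ n c, FreeMagma.lift x (dd n c) ≠ 0
  /-- a nonzero T-ideal contains all values of some derived word -/
  max : ∀ J : Submodule F B, TIdeal F B J → J ≠ ⊥ →
    ∃ n, ∀ φ : ℕ → B, FreeMagma.lift φ (dd n 0) ∈ J

end

/-- MODULE PRIMEQ -/
def PrimeQStmt : Prop :=
  ∀ (F : Type) [Field F] (S : Set (MonoidAlgebra F (FreeMagma ℕ))), ¬ AllSolv F S →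
    ∃ (B : Type) (_ : NonUnitalNonAssocRing B) (_ : Module F B) (_ : IsScalarTower F B B)
      (_ : SMulCommClass F B B) (x : ℕ → B), MaxAlg F S B x

theorem primeQ : PrimeQStmt := by
  intro F _ S h
  obtain ⟨P, hP, hP0, hPD, hmax⟩ := exists_max S h
  letI iR := qRing P hP.1
  letI iM : Module F (Fr F ⧸ P) := Submodule.Quotient.module P
  haveI iT : IsScalarTower F (Fr F ⧸ P) (Fr F ⧸ P) := q_tower P hP.1
  haveI iC : SMulCommClass F (Fr F ⧸ P) (Fr F ⧸ P) := q_comm P hP.1
  set π : Fr F →ₙₐ[F] (Fr F ⧸ P) := qmk P hP.1 with hπ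
  have hsurj : Function.Surjective π := Submodule.Quotient.mk_surjective P
  have hker : ∀ a, π a = 0 ↔ a ∈ P := fun a => Submodule.Quotient.mk_eq_zero P
  have hext : ∀ φ : ℕ → Fr F ⧸ P, ∃ Φ : (Fr F ⧸ P) →ₙₐ[F] (Fr F ⧸ P),
      ∀ i, Φ (π (mo F (FreeMagma.of i))) = φ i := by
    intro φ
    choose a ha using fun i => hsurj (φ i)
    refine ⟨qmap P hP.1 (ev a) (fun b hb => hP.2 _ b hb), fun i => ?_⟩
    have : qmap P hP.1 (ev a) (fun b hb => hP.2 _ b hb) (π (mo F (FreeMagma.of i))) =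
        π (ev a (mo F (FreeMagma.of i))) := rfl
    rw [this, ev_of, ha]
  have hev : ∀ f, ev (fun i => π (mo F (FreeMagma.of i))) f = π f := by
    intro f
    rw [← ev_comp]
    congr 1
    have : (ev (F := F) fun i => mo F (FreeMagma.of i)) = NonUnitalAlgHom.id F (Fr F) := by
      refine hom_ext' _ _ fun i => ?_
      rw [ev_of]
      rfl
    rw [this]
    rfl
  have hlift : ∀ w : FreeMagma ℕ, FreeMagma.lift (fun i => π (mo F (FreeMagma.of i))) w =
      π (mo F w) := by
    intro w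
    rw [← hev, ev_mo]
  have key : ∀ K : Submodule F (Fr F ⧸ P), TIdeal F (Fr F ⧸ P) K → K ≠ ⊥ →
      TIdeal F (Fr F) (K.comap (π : Fr F →ₗ[F] (Fr F ⧸ P))) ∧
        ∃ n, mo F (dd n 0) ∈ K.comap (π : Fr F →ₗ[F] (Fr F ⧸ P)) := by
    intro K hK hK0
    have h1 : TIdeal F (Fr F) (K.comap (π : Fr F →ₗ[F] (Fr F ⧸ P))) := by
      refine ⟨fun a ha b => ?_, fun Φ a ha => ?_⟩
      · have := hK.1 (π a) ha (π b)
        rw [← map_mul, ← map_mul] at this
        exact this
      · have := hK.2 (qmap P hP.1 Φ (fun b hb => hP.2 _ b hb)) (π a) ha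
        exact this
    refine ⟨h1, hmax _ h1 ?_⟩
    refine lt_of_le_of_ne ?_ ?_
    · intro a ha
      have : π a = 0 := (hker a).mpr ha
      change π a ∈ K
      rw [this]
      exact K.zero_mem
    · intro he
      apply hK0
      rw [eq_bot_iff]
      intro b hb
      obtain ⟨a, rfl⟩ := hsurj b
      have : a ∈ P := by rw [he]; exact hb
      exact (hker a).mpr this
  refine ⟨Fr F ⧸ P, iR, iM, iT, iC, fun i => π (mo F (FreeMagma.of i)), ⟨?_, ?_⟩, ?_, ⟨?_, ?_⟩,
    ?_, ?_, ?_, ?_, ?_⟩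
  · exact hext
  · intro b
    obtain ⟨f, rfl⟩ := hsurj b
    obtain ⟨n, hn⟩ := hom_fin (A := Fr F ⧸ P) f
    refine ⟨n, fun Φ Ψ hΦ => ?_⟩
    exact hn (Φ.comp π) (Ψ.comp π) hΦ
  · intro b
    obtain ⟨f, rfl⟩ := hsurj b
    exact ⟨f, hev f⟩
  · intro x y
    obtain ⟨a, rfl⟩ := hsurj x
    obtain ⟨b, rfl⟩ := hsurj y
    rw [← sub_eq_zero, ← map_mul, ← map_mul, ← map_mul, ← map_mul, ← map_sub, hker]
    exact hP0 (alt1_P0 S a b)
  · intro x y
    obtain ⟨a, rfl⟩ := hsurj x
    obtain ⟨b, rfl⟩ := hsurj y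
    rw [← sub_eq_zero, ← map_mul, ← map_mul, ← map_mul, ← map_mul, ← map_sub, hker]
    exact hP0 (alt2_P0 S a b)
  · intro f hf φ
    choose a ha using fun i => hsurj (φ i)
    have e : φ = fun i => π (a i) := funext fun i => (ha i).symm
    change ev φ f = 0
    rw [e, ← ev_comp, hker]
    exact hP.2 _ f (hP0 (sub_P0 S hf))
  · intro I J hI hJ hIJ
    by_contra hcon
    push Not at hcon
    obtain ⟨hI1, n, hn⟩ := key I hI hcon.1
    obtain ⟨hJ1, m, hm⟩ := key J hJ hcon.2
    have h1 := D_le hI1 hn (Max.max n m) (le_max_left _ _)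
    have h2 := D_le hJ1 hm (Max.max n m) (le_max_right _ _)
    have h3 := hJ1.2 (sh F (0 + 2 ^ (Max.max n m))) _ h2
    rw [sh_dd] at h3
    apply hPD (Max.max n m + 1)
    rw [← hker, dd_succ, mo_mul, map_mul]
    exact hIJ _ h1 _ h3
  · rintro n ⟨V, hV0, hV, hVn⟩
    have key : ∀ k c, π (mo F (dd k c)) ∈ V k := by
      intro k
      induction k with
      | zero => intro c; rw [hV0]; trivial
      | succ k ih =>
        intro c
        rw [dd_succ, mo_mul, map_mul]
        exact hV k _ (ih _) _ (ih _)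
    have := key n 0
    rw [hVn, Submodule.mem_bot, hker] at this
    exact hPD n this
  · intro n c hc
    rw [hlift, hker] at hc
    apply hPD n
    have h1 := hP.2 (ev fun i => mo F (FreeMagma.of (i - c))) _ hc
    rw [ev_mo] at h1
    have h2 : FreeMagma.lift (fun i => mo F (FreeMagma.of (i - c))) (dd n c) =
        FreeMagma.lift (fun i => mo F (FreeMagma.of i)) (dd n 0) :=
      lift_dd n c _ _ 0 fun i _ => by
        show mo F (FreeMagma.of (c + i - c)) = mo F (FreeMagma.of (0 + i))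
        rw [Nat.add_sub_cancel_left, Nat.zero_add]
    have h3 : FreeMagma.lift (fun i => mo F (FreeMagma.of i)) (dd n 0) = mo F (dd n 0) := by
      have key : ∀ w : FreeMagma ℕ, FreeMagma.lift (fun i => mo F (FreeMagma.of i)) w =
          mo F w := by
        intro w
        induction w using FreeMagma.recOnMul with
        | ih1 i => rw [FreeMagma.lift_of]
        | ih2 v w ihv ihw => rw [map_mul, ihv, ihw, mo_mul]
      exact key _
    rw [h2, h3] at h1
    exact h1
  · intro J hJ hJ0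
    obtain ⟨_, n, hn⟩ := key J hJ hJ0
    refine ⟨n, fun φ => ?_⟩
    obtain ⟨Φ, hΦ⟩ := hext φ
    have h1 := hJ.2 Φ _ hn
    have h2 : Φ (π (mo F (dd n 0))) = FreeMagma.lift φ (dd n 0) := by
      rw [← hev, ev_comp, ev_mo]
      have e : (fun i => Φ (π (mo F (FreeMagma.of i)))) = φ := funext hΦ
      rw [e]
    rw [← h2]
    exact h1

section
variable {F : Type} [Field F] {S : Set (MonoidAlgebra F (FreeMagma ℕ))}
variable {B : Type} [NonUnitalNonAssocRing B] [Module F B] [IsScalarTower F B B]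
  [SMulCommClass F B B] {x : ℕ → B}

/-- values of derived words on values of derived words -/
theorem lift_dd_dd {A : Type} [Mul A] (n : ℕ) (ψ : ℕ → A) : ∀ m c : ℕ,
    FreeMagma.lift (fun i => FreeMagma.lift ψ (dd n (i * 2 ^ n))) (dd m c) =
      FreeMagma.lift ψ (dd (m + n) (c * 2 ^ n)) := by
  intro m
  induction m with
  | zero =>
    intro c
    rw [dd_zero, FreeMagma.lift_of, Nat.zero_add]
  | succ m ih =>
    intro c
    rw [dd_succ, map_mul, ih, ih, show m + 1 + n = (m + n) + 1 by ring, dd_succ, map_mul]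
    congr 3
    ring

namespace MaxAlg

/-- elements with arguments in a subalgebra stay in the subalgebra -/
theorem ev_mem (h : MaxAlg F S B x) (I : Submodule F B) (hI : ∀ a ∈ I, ∀ b ∈ I, a * b ∈ I)
    (Φ : B →ₙₐ[F] B) (hΦ : ∀ i, Φ (x i) ∈ I) (b : B) : Φ b ∈ I := by
  obtain ⟨f, rfl⟩ := h.gen b
  have e : Φ (MonoidAlgebra.liftMagma F (FreeMagma.lift x) f) = ev (fun i => Φ (x i)) f :=
    ev_comp Φ x f
  rw [e]
  refine fr_induction (p := fun f => ev (fun i => Φ (x i)) f ∈ I) (fun w => ?_) ?_ ?_ f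
  · rw [ev_mo]
    induction w using FreeMagma.recOnMul with
    | ih1 i => rw [FreeMagma.lift_of]; exact hΦ i
    | ih2 v w ihv ihw => rw [map_mul]; exact hI _ ihv _ ihw
  · intro a b ha hb
    rw [map_add]
    exact I.add_mem ha hb
  · intro c a ha
    rw [map_smul]
    exact I.smul_mem c ha

/-- two endomorphisms which agree on the generators are equal -/
theorem hom_ext (h : MaxAlg F S B x) (Φ Ψ : B →ₙₐ[F] B) (hh : ∀ i, Φ (x i) = Ψ (x i)) :
    Φ = Ψ := by
  refine DFunLike.ext _ _ fun b => ?_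
  obtain ⟨n, hn⟩ := h.rel.fin b
  exact hn Φ Ψ fun i _ => hh i

/-- LEMMA Q: a polynomial vanishing on a subalgebra which contains all values of a derived word
is zero. -/
theorem lemQ (h : MaxAlg F S B x) (I : Submodule F B) (hI : ∀ a ∈ I, ∀ b ∈ I, a * b ∈ I)
    (n : ℕ) (hn : ∀ φ : ℕ → B, FreeMagma.lift φ (dd n 0) ∈ I) (b : B)
    (hb : ∀ Φ : B →ₙₐ[F] B, (∀ i, Φ (x i) ∈ I) → Φ b = 0) : b = 0 := by
  let J : Submodule F B :=
    { carrier := {b | ∀ Φ : B →ₙₐ[F] B, (∀ i, Φ (x i) ∈ I) → Φ b = 0}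
      add_mem' := fun {a b} ha hb Φ hΦ => by rw [map_add, ha Φ hΦ, hb Φ hΦ, add_zero]
      zero_mem' := fun Φ _ => map_zero Φ
      smul_mem' := fun c a ha Φ hΦ => by rw [map_smul, ha Φ hΦ, smul_zero] }
  have hJ : TIdeal F B J := by
    refine ⟨fun a ha b => ⟨fun Φ hΦ => ?_, fun Φ hΦ => ?_⟩, fun Ψ a ha Φ hΦ => ?_⟩
    · rw [map_mul, ha Φ hΦ, zero_mul]
    · rw [map_mul, ha Φ hΦ, mul_zero]
    · exact ha (Φ.comp Ψ) fun i => ev_mem h I hI Φ hΦ (Ψ (x i))
  by_contra hb0
  obtain ⟨m, hm⟩ := h.max J hJ (fun hJ0 => hb0 (by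
    have : b ∈ J := hb
    rwa [hJ0, Submodule.mem_bot] at this))
  obtain ⟨Φ, hΦ⟩ := h.rel.ext fun i => FreeMagma.lift x (dd n (i * 2 ^ n))
  have hmem : ∀ c, FreeMagma.lift x (dd n c) ∈ I := by
    intro c
    have h1 := hn fun i => x (c + i)
    have h2 : FreeMagma.lift (fun i => x (c + i)) (dd n 0) = FreeMagma.lift x (dd n c) :=
      lift_dd n 0 _ _ c fun i _ => by rw [Nat.zero_add]
    rwa [h2] at h1
  have h1 : Φ (FreeMagma.lift x (dd m 0)) = 0 := hm x Φ fun i => by
    rw [hΦ]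
    exact hmem _
  have h2 : Φ (FreeMagma.lift x (dd m 0)) =
      FreeMagma.lift (fun i => FreeMagma.lift x (dd n (i * 2 ^ n))) (dd m 0) := by
    have h3 : FreeMagma.lift x (dd m 0) = ev (F := F) x (mo F (dd m 0)) := (ev_mo x _).symm
    rw [h3, ev_comp, ev_mo]
    congr 1
    congr 1
    funext i
    exact hΦ i
  rw [h2, lift_dd_dd, Nat.zero_mul] at h1
  exact h.nd _ _ h1

/-- LEMMA Q for a nonzero T-ideal. -/
theorem lemQI (h : MaxAlg F S B x) (I : Submodule F B) (hI : TIdeal F B I) (hI0 : I ≠ ⊥) (b : B)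
    (hb : ∀ Φ : B →ₙₐ[F] B, (∀ i, Φ (x i) ∈ I) → Φ b = 0) : b = 0 := by
  obtain ⟨n, hn⟩ := h.max I hI hI0
  exact h.lemQ I (fun a ha c _ => (hI.1 a ha c).1) n hn b hb

end MaxAlg

end

end Pool.Agent.TP
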