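import Mathlib

/-!
# MP_ce3ba7_al, characteristic 3, module FF, part 1 (helper59)

Nested additive functions over an infinite field: identification of the parameters of the levels
loses nothing.
-/

set_option autoImplicit false
set_option linter.unusedSectionVars false
set_option linter.unusedVariables false

namespace Pool.Agent.TP

namespace FF

open Function

section poly

variable {K E : Type} [Field K] [AddCommGroup E] [Module K E]

/-- polynomial functions of `l`, all exponents at least `e` -/
def PG (K E : Type) [Field K] [AddCommGroup E] [Module K E] (e : ℕ) : AddSubgroup (K → E) :=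
  AddSubgroup.closure {f | ∃ k, e ≤ k ∧ ∃ c : E, f = fun l => l ^ k • c}

lemma pg_mono {e e' : ℕ} (h : e ≤ e') : PG K E e' ≤ PG K E e := by
  unfold PG
  rw [AddSubgroup.closure_le]
  rintro f ⟨k, hk, c, rfl⟩
  exact AddSubgroup.subset_closure ⟨k, h.trans hk, c, rfl⟩

lemma pg_of {e k : ℕ} (h : e ≤ k) (c : E) : (fun l : K => l ^ k • c) ∈ PG K E e :=
  AddSubgroup.subset_closure ⟨k, h, c, rfl⟩

/-- image under an additive homogeneous function -/
lemma pg_map {e d : ℕ} {f : E → E} (hadd : ∀ u v, f (u + v) = f u + f v)
    (hs : ∀ (l : K) u, f (l • u) = l ^ d • f u) {g : K → E} (hg : g ∈ PG K E e) :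
    (fun l => f (g l)) ∈ PG K E (d * e) := by
  have h0 : f 0 = 0 := by
    have := hadd 0 0
    rw [add_zero] at this
    exact left_eq_add.mp this
  have hneg : ∀ u, f (-u) = - f u := by
    intro u
    have := hadd u (-u)
    rw [add_neg_cancel, h0] at this
    exact (neg_eq_of_add_eq_zero_right this.symm).symm
  unfold PG at hg
  induction hg using AddSubgroup.closure_induction with
  | mem g hg =>
    obtain ⟨k, hk, c, rfl⟩ := hg
    have e1 : (fun l : K => f (l ^ k • c)) = fun l => l ^ (d * k) • f c := by
      funext l
      rw [hs, ← pow_mul, mul_comm]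
    rw [e1]
    exact pg_of (Nat.mul_le_mul_left d hk) _
  | zero =>
    have e1 : (fun l : K => f ((0 : K → E) l)) = 0 := by
      funext l
      exact h0
    rw [e1]
    exact AddSubgroup.zero_mem _
  | add a b _ _ ha hb =>
    have e1 : (fun l : K => f ((a + b) l)) = (fun l => f (a l)) + fun l => f (b l) := by
      funext l
      exact hadd _ _
    rw [e1]
    exact AddSubgroup.add_mem _ ha hb
  | neg a _ ha =>
    have e1 : (fun l : K => f ((-a) l)) = -fun l => f (a l) := by
      funext l
      exact hneg _
    rw [e1]
    exact AddSubgroup.neg_mem _ ha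

lemma pg_shift {e a : ℕ} {g : K → E} (hg : g ∈ PG K E e) :
    (fun l => l ^ a • g l) ∈ PG K E (a + e) := by
  unfold PG at hg
  induction hg using AddSubgroup.closure_induction with
  | mem g hg =>
    obtain ⟨k, hk, c, rfl⟩ := hg
    have e1 : (fun l : K => l ^ a • l ^ k • c) = fun l => l ^ (a + k) • c := by
      funext l
      rw [smul_smul, pow_add]
    rw [e1]
    exact pg_of (Nat.add_le_add_left hk a) _
  | zero =>
    have e1 : (fun l : K => l ^ a • (0 : K → E) l) = 0 := by
      funext l
      exact smul_zero _
    rw [e1]
    exact AddSubgroup.zero_mem _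
  | add x y _ _ ha hb =>
    have e1 : (fun l : K => l ^ a • (x + y) l) = (fun l => l ^ a • x l) +
        fun l => l ^ a • y l := by
      funext l
      exact smul_add _ _ _
    rw [e1]
    exact AddSubgroup.add_mem _ ha hb
  | neg x _ ha =>
    have e1 : (fun l : K => l ^ a • (-x) l) = -fun l => l ^ a • x l := by
      funext l
      exact smul_neg _ _
    rw [e1]
    exact AddSubgroup.neg_mem _ ha

lemma pg_zero [Infinite K] {a : ℕ} {c : E} (h : (fun l : K => l ^ a • c) ∈ PG K E (a + 1)) :
    c = 0 := by
  rw [← Module.forall_dual_apply_eq_zero_iff K]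
  intro f
  have key : ∀ g ∈ PG K E (a + 1), ∃ p : Polynomial K, Polynomial.X ^ (a + 1) ∣ p ∧
      ∀ l, f (g l) = p.eval l := by
    intro g hg
    unfold PG at hg
    induction hg using AddSubgroup.closure_induction with
    | mem g hg =>
      obtain ⟨k, hk, c, rfl⟩ := hg
      refine ⟨Polynomial.X ^ k * Polynomial.C (f c), (pow_dvd_pow _ hk).mul_right _, fun l => ?_⟩
      rw [map_smul, smul_eq_mul, Polynomial.eval_mul, Polynomial.eval_pow, Polynomial.eval_X,
        Polynomial.eval_C]
    | zero => exact ⟨0, dvd_zero _, fun l => by simp⟩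
    | add x y _ _ ha hb =>
      obtain ⟨p, hp, hp2⟩ := ha
      obtain ⟨q, hq, hq2⟩ := hb
      exact ⟨p + q, dvd_add hp hq, fun l => by
        rw [Polynomial.eval_add, ← hp2, ← hq2]
        exact map_add f _ _⟩
    | neg x _ ha =>
      obtain ⟨p, hp, hp2⟩ := ha
      exact ⟨-p, (dvd_neg).mpr hp, fun l => by
        rw [Polynomial.eval_neg, ← hp2]
        exact map_neg f _⟩
  obtain ⟨p, hp, hp2⟩ := key _ h
  have h1 : p = Polynomial.X ^ a * Polynomial.C (f c) := by
    apply Polynomial.funext
    intro l
    rw [← hp2, map_smul, smul_eq_mul, Polynomial.eval_mul, Polynomial.eval_pow, Polynomial.eval_X,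
      Polynomial.eval_C]
  rw [Polynomial.X_pow_dvd_iff] at hp
  have h2 := hp a (Nat.lt_succ_self a)
  rw [h1] at h2
  simpa [Polynomial.coeff_mul_C, Polynomial.coeff_X_pow] using h2

end poly

section lev

variable {K E ι : Type} [Field K] [AddCommGroup E] [Module K E] [DecidableEq ι]

/-- level functions -/
structure Lev (K : Type) [Field K] [Module K E] (d : ℕ) (e : ι → ℕ) (Z : Finset ι)
    (ψ : (ι → E) → E → E) : Prop where
  add : ∀ q u v, ψ q (u + v) = ψ q u + ψ q v
  smul : ∀ q (l : K) u, ψ q (l • u) = l ^ d • ψ q u
  dep : ∀ q q' u, (∀ z ∈ Z, q z = q' z) → ψ q u = ψ q' u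
  coord : ∀ z ∈ Z, (∀ q p u, ψ (update q z p) u = ψ q u) ∨
    (∀ q (l : K) p p' u, ψ (update q z (p + l • p')) u =
      ψ (update q z p) u + l ^ (e z) • ψ (update q z p') u)

/-- nest with identified parameters -/
def NI (L : List ((ι → E) → E → E)) (q : ι → E) (c : E) : E := L.foldr (fun ψ u => ψ q u) c

/-- nest with separate parameters -/
def NS (L : List (((ι → E) → E → E) × (ι → E))) (c : E) : E :=
  L.foldr (fun p u => p.1 p.2 u) c

lemma NI_cons (ψ : (ι → E) → E → E) (L : List ((ι → E) → E → E)) (q : ι → E) (c : E) :
    NI (ψ :: L) q c = ψ q (NI L q c) := rfl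

variable {d : ℕ} {e : ι → ℕ} {Z : Finset ι}

lemma ni_pg (hd : 1 ≤ d) (L : List ((ι → E) → E → E)) (hL : ∀ ψ ∈ L, Lev K d e Z ψ)
    (q : ι → E) (z : ι) (hz : z ∈ Z) (p c : E) :
    (fun l : K => NI L (update q z (q z + l • p)) c - NI L q c) ∈ PG K E (e z) := by
  induction L with
  | nil =>
    have e1 : (fun l : K => NI ([] : List ((ι → E) → E → E)) (update q z (q z + l • p)) c -
        NI [] q c) = 0 := by
      funext l
      exact sub_self _
    rw [e1]
    exact AddSubgroup.zero_mem _
  | cons ψ L ih =>
    have hψ := hL ψ (List.mem_cons_self ..)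
    have ih' := ih fun φ hφ => hL φ (List.mem_cons_of_mem _ hφ)
    have hsub : ∀ q u v, ψ q (u - v) = ψ q u - ψ q v := by
      intro q u v
      have := hψ.add q (u - v) v
      rw [sub_add_cancel] at this
      rw [this, add_sub_cancel_right]
    rcases hψ.coord z hz with h1 | h1
    · have e1 : (fun l : K => NI (ψ :: L) (update q z (q z + l • p)) c - NI (ψ :: L) q c) =
          fun l => ψ q (NI L (update q z (q z + l • p)) c - NI L q c) := by
        funext l
        rw [NI_cons, NI_cons, h1, hsub]
      rw [e1]
      have := pg_map (K := K) (hψ.add q) (hψ.smul q) ih'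
      refine pg_mono ?_ this
      exact Nat.le_mul_of_pos_left _ hd
    · have e1 : (fun l : K => NI (ψ :: L) (update q z (q z + l • p)) c - NI (ψ :: L) q c) =
          (fun l => ψ q (NI L (update q z (q z + l • p)) c - NI L q c)) +
          ((fun l => l ^ (e z) • ψ (update q z p) (NI L (update q z (q z + l • p)) c - NI L q c)) +
          fun l => l ^ (e z) • ψ (update q z p) (NI L q c)) := by
        funext l
        change _ = ψ q _ + (l ^ (e z) • ψ (update q z p) _ + l ^ (e z) • ψ (update q z p) _)
        rw [NI_cons, NI_cons, h1, hsub, hsub, update_eq_self, smul_sub]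
        abel
      rw [e1]
      refine AddSubgroup.add_mem _ ?_ (AddSubgroup.add_mem _ ?_ ?_)
      · have := pg_map (K := K) (hψ.add q) (hψ.smul q) ih'
        exact pg_mono (Nat.le_mul_of_pos_left _ hd) this
      · have h2 := pg_map (K := K) (hψ.add (update q z p)) (hψ.smul (update q z p)) ih'
        have h3 := pg_shift (a := e z) h2
        exact pg_mono (Nat.le_add_right _ _) h3
      · exact pg_of le_rfl _

/-- de-identification -/
theorem deid [Infinite K] (hd : 2 ≤ d) (he : ∀ z ∈ Z, 1 ≤ e z)
    (L : List (((ι → E) → E → E) × (ι → E))) (hL : ∀ p ∈ L, Lev K d e Z p.1) :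
    ∀ (D : ℕ) (_ : 1 ≤ D) (Ψ : E → E) (_ : ∀ u v, Ψ (u + v) = Ψ u + Ψ v)
      (_ : ∀ (l : K) u, Ψ (l • u) = l ^ D • Ψ u)
      (_ : ∀ q c, Ψ (NI (L.map Prod.fst) q c) = 0) (c : E), Ψ (NS L c) = 0 := by
  induction L with
  | nil =>
    intro D hD Ψ h1 h2 h3 c
    exact h3 (fun _ => 0) c
  | cons p0 L ih =>
    obtain ⟨ψ, q1⟩ := p0
    intro D hD Ψ h1 h2 h3 c
    have hψ : Lev K d e Z ψ := hL (ψ, q1) (List.mem_cons_self ..)
    have hL' : ∀ p ∈ L, Lev K d e Z p.1 := fun φ hφ => hL φ (List.mem_cons_of_mem _ hφ)
    have hL'' : ∀ φ ∈ L.map Prod.fst, Lev K d e Z φ := by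
      intro φ hφ
      obtain ⟨p, hp, rfl⟩ := List.mem_map.mp hφ
      exact hL' p hp
    set M := L.map Prod.fst with hM
    have key : ∀ Y : Finset ι, Y ⊆ Z → ∀ (q p : ι → E) (c : E),
        Ψ (ψ (fun z => if z ∈ Y then p z else q z) (NI M q c)) = 0 := by
      intro Y
      induction Y using Finset.induction_on with
      | empty =>
        intro _ q p c
        have := h3 q c
        rw [List.map_cons, NI_cons] at this
        simpa using this
      | insert z Y hzY ihY =>
        intro hYZ q p c
        have hY : Y ⊆ Z := fun y hy => hYZ (Finset.mem_insert_of_mem hy)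
        have hz : z ∈ Z := hYZ (Finset.mem_insert_self _ _)
        set m : ι → E := fun y => if y ∈ Y then p y else q y with hm
        have em : (fun y => if y ∈ insert z Y then p y else q y) = update m z (p z) := by
          funext y
          by_cases hy : y = z
          · subst hy
            simp
          · rw [update_of_ne hy, hm]
            simp [Finset.mem_insert, hy]
        rw [em]
        rcases hψ.coord z hz with h4 | h4
        · rw [h4]
          exact ihY hY q p c
        · -- the used coordinate
          have hmz : m z = q z := by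
            rw [hm]
            simp [hzY]
          have hsub : ∀ q u v, ψ q (u - v) = ψ q u - ψ q v := by
            intro q u v
            have := hψ.add q (u - v) v
            rw [sub_add_cancel] at this
            rw [this, add_sub_cancel_right]
          have hΨsub : ∀ u v, Ψ (u - v) = Ψ u - Ψ v := by
            intro u v
            have := h1 (u - v) v
            rw [sub_add_cancel] at this
            rw [this, add_sub_cancel_right]
          set r : K → E := fun l => NI M (update q z (q z + l • p z)) c - NI M q c with hr
          have hrp : r ∈ PG K E (e z) := ni_pg (le_trans (by norm_num) hd) M hL'' q z hz (p z) c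
          have e0 : ∀ l : K, Ψ (ψ m (NI M (update q z (q z + l • p z)) c)) +
              l ^ (D * e z) • Ψ (ψ (update m z (p z)) (NI M (update q z (q z + l • p z)) c)) =
              0 := by
            intro l
            have h5 := ihY hY (update q z (q z + l • p z)) p c
            have e2 : (fun y => if y ∈ Y then p y else update q z (q z + l • p z) y) =
                update m z (m z + l • p z) := by
              funext y
              by_cases hy : y = z
              · subst hy
                rw [if_neg hzY, update_self, update_self, hmz]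
              · rw [update_of_ne hy, update_of_ne hy, hm]
            rw [e2, h4, update_eq_self, h1, h2, ← pow_mul, mul_comm (e z) D] at h5
            exact h5
          have e1 : (fun l : K => l ^ (D * e z) •
              Ψ (ψ (update m z (p z)) (NI M q c))) =
              -((fun l => Ψ (ψ m (r l))) + fun l => l ^ (D * e z) •
                Ψ (ψ (update m z (p z)) (r l))) := by
            funext l
            have h6 := e0 l
            have h7 : Ψ (ψ m (NI M q c)) = 0 := ihY hY q p c
            change l ^ (D * e z) • Ψ (ψ (update m z (p z)) (NI M q c)) =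
              -(Ψ (ψ m (r l)) + l ^ (D * e z) • Ψ (ψ (update m z (p z)) (r l)))
            rw [hr]
            change _ = -(Ψ (ψ m (NI M (update q z (q z + l • p z)) c - NI M q c)) +
              l ^ (D * e z) • Ψ (ψ (update m z (p z))
                (NI M (update q z (q z + l • p z)) c - NI M q c)))
            rw [hsub, hsub, hΨsub, hΨsub, h7, sub_zero, smul_sub]
            rw [← sub_eq_zero]
            rw [← h6]
            abel
          refine pg_zero (K := K) (a := D * e z) ?_
          rw [e1]
          refine AddSubgroup.neg_mem _ (AddSubgroup.add_mem _ ?_ ?_)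
          · have h8 := pg_map (K := K) (hψ.add m) (hψ.smul m) hrp
            have h9 := pg_map (K := K) h1 h2 h8
            refine pg_mono ?_ h9
            have h10 := he z hz
            have h11 : 1 ≤ D * e z := Nat.one_le_iff_ne_zero.mpr (by positivity)
            calc D * e z + 1 ≤ D * e z + D * e z := by omega
              _ = D * (2 * e z) := by ring
              _ ≤ D * (d * e z) := Nat.mul_le_mul_left _ (Nat.mul_le_mul_right _ hd)
          · have h8 := pg_map (K := K) (hψ.add (update m z (p z)))
              (hψ.smul (update m z (p z))) hrp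
            have h9 := pg_map (K := K) h1 h2 h8
            have h10 := pg_shift (a := D * e z) h9
            refine pg_mono ?_ h10
            have h11 := he z hz
            have h12 : 1 ≤ D * (d * e z) := Nat.one_le_iff_ne_zero.mpr (by positivity)
            omega
    have key2 : ∀ q c, Ψ (ψ q1 (NI M q c)) = 0 := by
      intro q c
      have h4 := key Z (Finset.Subset.refl _) q q1 c
      rw [hψ.dep (fun z => if z ∈ Z then q1 z else q z) q1 _ (fun z hz => by rw [if_pos hz])]
        at h4
      exact h4
    have h5 := ih hL' (D * d) (Nat.one_le_iff_ne_zero.mpr (by positivity))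
      (fun u => Ψ (ψ q1 u)) (fun u v => by rw [hψ.add, h1])
      (fun l u => by rw [hψ.smul, h2, ← pow_mul, mul_comm d D]) key2 c
    exact h5

end lev

end FF

end Pool.Agent.TP
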