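import Pool.Agent.Helper52_TP.Hom
import Pool.Agent.Helper59_TP3.FF1

/-!
# MP_ce3ba7_al, characteristic 3, module FF, part 2 (helper59)

Homogeneous multiadditive polynomials and their nests.
-/

set_option autoImplicit false
set_option linter.unusedSectionVars false
set_option linter.unusedVariables false

namespace Pool.Agent.TP

namespace FF

open Function H67 H52

section pe

variable {F A : Type} [Field F] [NonUnitalNonAssocRing A] [Module F A]

/-- value of a polynomial -/
def pe (T : Finset (FreeMagma ℕ)) (c : FreeMagma ℕ → F) (y : ℕ → A) : A :=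
  ∑ w ∈ T, c w • FreeMagma.lift y w

lemma pe_congr {T : Finset (FreeMagma ℕ)} {c : FreeMagma ℕ → F} {y y' : ℕ → A}
    (h : ∀ w ∈ T, ∀ a ∈ lets w, y a = y' a) : pe T c y = pe T c y' :=
  Finset.sum_congr rfl fun w hw => by rw [lift_congr y y' w (h w hw)]

end pe

section scal

variable {K A : Type} [Field K] [NonUnitalNonAssocRing A] [Module K A]
    [IsScalarTower K A A] [SMulCommClass K A A]

lemma lift_scale (y : ℕ → A) (a : ℕ) (l : K) (u : A) (w : FreeMagma ℕ) :
    FreeMagma.lift (update y a (l • u)) w =
      l ^ (lets w).count a • FreeMagma.lift (update y a u) w := by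
  induction w using FreeMagma.recOnMul with
  | ih1 i =>
    rw [FreeMagma.lift_of, FreeMagma.lift_of, lets_of, Multiset.count_singleton]
    by_cases h : a = i
    · subst h
      rw [if_pos rfl, update_self, update_self, pow_one]
    · rw [if_neg h, update_of_ne (Ne.symm h), update_of_ne (Ne.symm h), pow_zero, one_smul]
  | ih2 v w ihv ihw =>
    rw [map_mul, map_mul, ihv, ihw, lets_mul, Multiset.count_add, smul_mul_assoc, mul_smul_comm,
      smul_smul, pow_add]

lemma lift_scale' (y : ℕ → A) (l : ℕ → K) (w : FreeMagma ℕ) :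
    FreeMagma.lift (fun i => l i • y i) w =
      ((lets w).map l).prod • FreeMagma.lift y w := by
  induction w using FreeMagma.recOnMul with
  | ih1 i =>
    rw [FreeMagma.lift_of, FreeMagma.lift_of, lets_of]
    simp
  | ih2 v w ihv ihw =>
    rw [map_mul, map_mul, ihv, ihw, lets_mul, Multiset.map_add, Multiset.prod_add, smul_mul_assoc,
      mul_smul_comm, smul_smul]

variable {F : Type} [Field F] [Module F A] [Algebra F K] [IsScalarTower F K A]

lemma pe_scale {T : Finset (FreeMagma ℕ)} (c : FreeMagma ℕ → F) {a n : ℕ}
    (h : ∀ w ∈ T, (lets w).count a = n) (y : ℕ → A) (l : K) (u : A) :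
    pe T c (update y a (l • u)) = l ^ n • pe T c (update y a u) := by
  unfold pe
  rw [Finset.smul_sum]
  refine Finset.sum_congr rfl fun w hw => ?_
  rw [lift_scale, h w hw, ← algebraMap_smul K, ← algebraMap_smul K (c w), smul_comm]

lemma pe_scale' {T : Finset (FreeMagma ℕ)} (c : FreeMagma ℕ → F) {μ : Multiset ℕ}
    (h : ∀ w ∈ T, lets w = μ) (y : ℕ → A) (l : ℕ → K) :
    pe T c (fun i => l i • y i) = (μ.map l).prod • pe T c y := by
  unfold pe
  rw [Finset.smul_sum]
  refine Finset.sum_congr rfl fun w hw => ?_
  rw [lift_scale', h w hw, ← algebraMap_smul K, ← algebraMap_smul K (c w), smul_comm]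

end scal

/-! ### multiplication words -/

section mw

variable {A : Type} [NonUnitalNonAssocRing A]

/-- multiplication word -/
def mw : List Bool → (ℕ → A) → A → A
  | [], _, u => u
  | s :: π, β, u => if s then β π.length * mw π β u else mw π β u * β π.length

lemma mw_congr (π : List Bool) (β β' : ℕ → A) (h : ∀ i < π.length, β i = β' i) (u : A) :
    mw π β u = mw π β' u := by
  induction π with
  | nil => rfl
  | cons s π ih =>
    have h1 := ih fun i hi => h i (by rw [List.length_cons]; omega)
    have h2 : β π.length = β' π.length := h _ (by rw [List.length_cons]; omega)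
    unfold mw
    rw [h1, h2]

lemma mw_add (π : List Bool) (β : ℕ → A) (u v : A) : mw π β (u + v) = mw π β u + mw π β v := by
  induction π with
  | nil => rfl
  | cons s π ih =>
    unfold mw
    rw [ih]
    split_ifs
    · rw [mul_add]
    · rw [add_mul]

lemma mw_zero (π : List Bool) (β : ℕ → A) : mw π β 0 = 0 := by
  have := mw_add π β 0 0
  rw [add_zero] at this
  exact left_eq_add.mp this

lemma mw_append (π π' : List Bool) (β β' : ℕ → A) (u : A) :
    mw π β (mw π' β' u) =
      mw (π ++ π') (fun i => if i < π'.length then β' i else β (i - π'.length)) u := by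
  induction π with
  | nil =>
    rw [List.nil_append]
    exact mw_congr π' _ _ (fun i hi => by rw [if_pos hi]) u
  | cons s π ih =>
    rw [List.cons_append]
    unfold mw
    rw [ih]
    have e : (if (π ++ π').length < π'.length then β' (π ++ π').length else
        β ((π ++ π').length - π'.length)) = β π.length := by
      rw [List.length_append, if_neg (by omega), Nat.add_sub_cancel]
    simp only [e]

section
variable {K : Type} [Field K] [Module K A] [IsScalarTower K A A] [SMulCommClass K A A]

lemma mw_smul (π : List Bool) (β : ℕ → A) (l : K) (u : A) : mw π β (l • u) = l • mw π β u := by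
  induction π with
  | nil => rfl
  | cons s π ih =>
    unfold mw
    rw [ih]
    split_ifs
    · rw [mul_smul_comm]
    · rw [smul_mul_assoc]

/-- linear in each multiplier -/
lemma mw_lin (π : List Bool) (β : ℕ → A) (j : ℕ) (hj : j < π.length) (l : K) (p p' : A) (u : A) :
    mw π (update β j (p + l • p')) u = mw π (update β j p) u + l • mw π (update β j p') u := by
  induction π with
  | nil => simp at hj
  | cons s π ih =>
    unfold mw
    by_cases hjp : j = π.length
    · subst hjp
      have h1 : ∀ q, mw π (update β π.length q) u = mw π β u := fun q =>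
        mw_congr π _ _ (fun i hi => by rw [update_of_ne (Nat.ne_of_lt hi)]) u
      rw [h1, h1, h1, update_self, update_self, update_self]
      split_ifs
      · rw [add_mul, smul_mul_assoc]
      · rw [mul_add, mul_smul_comm]
    · have h2 : ∀ q, update β j q π.length = β π.length := fun q =>
        update_of_ne (Ne.symm hjp) _ _
      rw [h2, h2, h2, ih (by rw [List.length_cons] at hj; omega)]
      split_ifs
      · rw [mul_add, mul_smul_comm]
      · rw [add_mul, smul_mul_assoc]

end

lemma mw_map {A' : Type} [NonUnitalNonAssocRing A'] (j : A → A') (hj : ∀ a b, j (a * b) = j a * j b)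
    (π : List Bool) (β : ℕ → A) (u : A) : j (mw π β u) = mw π (fun i => j (β i)) (j u) := by
  induction π with
  | nil => rfl
  | cons s π ih =>
    unfold mw
    split_ifs
    · rw [hj, ih]
    · rw [hj, ih]

end mw

/-! ### levels -/

section level

variable {F A : Type} [Field F] [NonUnitalNonAssocRing A] [Module F A]

/-- level function of a polynomial -/
def lvl (T : Finset (FreeMagma ℕ)) (c : FreeMagma ℕ → F) (x : ℕ) (π : List Bool)
    (q : ℕ ⊕ ℕ → A) (u : A) : A :=
  pe T c (update (fun i => q (Sum.inr i)) x (mw π (fun j => q (Sum.inl j)) u))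

/-- coordinates -/
def ZZ (t : ℕ) (U : Finset ℕ) (x : ℕ) : Finset (ℕ ⊕ ℕ) :=
  (Finset.range t).disjSum (U.erase x)

variable {K : Type} [Field K] [Module K A] [IsScalarTower K A A] [SMulCommClass K A A]
  [Algebra F K] [IsScalarTower F K A]

theorem lvl_lev {T : Finset (FreeMagma ℕ)} {c : FreeMagma ℕ → F} {μ : Multiset ℕ}
    (hT : ∀ w ∈ T, lets w = μ) {x t : ℕ} (hx : x ∈ μ)
    (hadd : ∀ z ∈ μ, ∀ (y : ℕ → A) u v, pe T c (update y z (u + v)) =
      pe T c (update y z u) + pe T c (update y z v))
    {π : List Bool} (hπ : π.length ≤ t) :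
    Lev K (μ.count x) (Sum.elim (fun _ => μ.count x) (fun i => μ.count i))
      (ZZ t μ.toFinset x) (lvl (A := A) T c x π) := by
  have hcount : ∀ a, ∀ w ∈ T, (lets w).count a = μ.count a := fun a w hw => by rw [hT w hw]
  refine ⟨fun q u v => ?_, fun q l u => ?_, fun q q' u h => ?_, fun z hz => ?_⟩
  · unfold lvl
    rw [mw_add, hadd x hx]
  · unfold lvl
    rw [mw_smul, pe_scale c (hcount x)]
  · unfold lvl
    refine pe_congr fun w hw a ha => ?_
    rw [hT w hw] at ha
    by_cases hax : a = x
    · subst hax
      rw [update_self, update_self]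
      refine mw_congr π _ _ (fun i hi => ?_) u
      apply h
      unfold ZZ
      rw [Finset.inl_mem_disjSum, Finset.mem_range]
      omega
    · rw [update_of_ne hax, update_of_ne hax]
      apply h
      unfold ZZ
      rw [Finset.inr_mem_disjSum, Finset.mem_erase, Multiset.mem_toFinset]
      exact ⟨hax, ha⟩
  · unfold ZZ at hz
    rcases z with j | i
    · -- a multiplier
      by_cases hj : j < π.length
      · right
        intro q l p p' u
        unfold lvl
        have e1 : ∀ p : A, (fun i => update q (Sum.inl j) p (Sum.inr i)) =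
            fun i => q (Sum.inr i) := by
          intro p
          funext i
          rw [update_of_ne (by simp)]
        have e2 : ∀ p : A, (fun i => update q (Sum.inl j) p (Sum.inl i)) =
            update (fun i => q (Sum.inl i)) j p := by
          intro p
          funext i
          by_cases hi : i = j
          · subst hi
            rw [update_self, update_self]
          · rw [update_of_ne hi, update_of_ne (fun h => hi (Sum.inl_injective h))]
        rw [e1, e1, e1, e2, e2, e2, mw_lin π _ j hj, hadd x hx, pe_scale c (hcount x)]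
        rfl
      · left
        intro q p u
        unfold lvl
        have e1 : (fun i => update q (Sum.inl j) p (Sum.inr i)) = fun i => q (Sum.inr i) := by
          funext i
          rw [update_of_ne (by simp)]
        rw [e1]
        congr 2
        refine mw_congr π _ _ (fun i hi => ?_) u
        rw [update_of_ne]
        intro h
        have := Sum.inl_injective h
        omega
    · -- a letter of the polynomial
      right
      rw [Finset.inr_mem_disjSum, Finset.mem_erase, Multiset.mem_toFinset] at hz
      intro q l p p' u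
      unfold lvl
      have e1 : ∀ p : A, (fun k => update q (Sum.inr i) p (Sum.inr k)) =
          update (fun k => q (Sum.inr k)) i p := by
        intro p
        funext k
        by_cases hk : k = i
        · subst hk
          rw [update_self, update_self]
        · rw [update_of_ne hk, update_of_ne (fun h => hk (Sum.inr_injective h))]
      have e2 : ∀ p : A, (fun k => update q (Sum.inr i) p (Sum.inl k)) =
          fun k => q (Sum.inl k) := by
        intro p
        funext k
        rw [update_of_ne (by simp)]
      rw [e1, e1, e1, e2, e2, e2, update_comm hz.1, update_comm hz.1,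
        update_comm hz.1, hadd i hz.2, pe_scale c (hcount i)]
      rfl

end level

/-! ### products of generators -/

section sp

variable {K A : Type} [Field K] [NonUnitalNonAssocRing A] [Module K A]
    [IsScalarTower K A A] [SMulCommClass K A A]

/-- span of the products of at least `n` generators -/
def SP (K : Type) {A : Type} [Field K] [NonUnitalNonAssocRing A] [Module K A] {m : ℕ}
    (y : Fin m → A) (n : ℕ) : Submodule K A :=
  Submodule.span K {u | ∃ w : FreeMagma (Fin m), n ≤ w.length ∧ u = FreeMagma.lift y w}

lemma sp_anti {m : ℕ} (y : Fin m → A) {n n' : ℕ} (h : n ≤ n') : SP K y n' ≤ SP K y n := by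
  unfold SP
  refine Submodule.span_mono ?_
  rintro u ⟨w, hw, rfl⟩
  exact ⟨w, h.trans hw, rfl⟩

lemma sp_gen {m : ℕ} (y : Fin m → A) (i : Fin m) : y i ∈ SP K y 1 :=
  Submodule.subset_span ⟨FreeMagma.of i, le_rfl, rfl⟩

lemma sp_mul {m : ℕ} (y : Fin m → A) {n n' : ℕ} {a b : A} (ha : a ∈ SP K y n)
    (hb : b ∈ SP K y n') : a * b ∈ SP K y (n + n') := by
  unfold SP at ha
  induction ha using Submodule.span_induction with
  | mem a ha =>
    obtain ⟨w, hw, rfl⟩ := ha
    unfold SP at hb
    induction hb using Submodule.span_induction with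
    | mem b hb =>
      obtain ⟨v, hv, rfl⟩ := hb
      refine Submodule.subset_span ⟨w * v, ?_, (map_mul _ _ _).symm⟩
      have : (w * v).length = w.length + v.length := rfl
      omega
    | zero => rw [mul_zero]; exact Submodule.zero_mem _
    | add x z _ _ hx hz => rw [mul_add]; exact Submodule.add_mem _ hx hz
    | smul l x _ hx => rw [mul_smul_comm]; exact Submodule.smul_mem _ _ hx
  | zero => rw [zero_mul]; exact Submodule.zero_mem _
  | add x z _ _ hx hz => rw [add_mul]; exact Submodule.add_mem _ hx hz
  | smul l x _ hx => rw [smul_mul_assoc]; exact Submodule.smul_mem _ _ hx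

lemma sp_lift {m : ℕ} (y : Fin m → A) (v : ℕ → A) (x n : ℕ) (hx : v x ∈ SP K y n)
    (w : FreeMagma ℕ) (hw : ∀ i ∈ lets w, i ≠ x → v i ∈ SP K y 1) :
    FreeMagma.lift v w ∈ SP K y (n * (lets w).count x) := by
  induction w using FreeMagma.recOnMul with
  | ih1 i =>
    rw [FreeMagma.lift_of, lets_of, Multiset.count_singleton]
    by_cases h : x = i
    · subst h
      rw [if_pos rfl, mul_one]
      exact hx
    · rw [if_neg h, mul_zero]
      exact sp_anti y (Nat.zero_le _) (hw i (by rw [lets_of]; simp) (Ne.symm h))
  | ih2 a b iha ihb =>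
    rw [map_mul, lets_mul, Multiset.count_add, mul_add]
    exact sp_mul y (iha fun i hi => hw i (by rw [lets_mul]; exact Multiset.mem_add.mpr (Or.inl hi)))
      (ihb fun i hi => hw i (by rw [lets_mul]; exact Multiset.mem_add.mpr (Or.inr hi)))

lemma sp_mw {m : ℕ} (y : Fin m → A) (π : List Bool) (β : ℕ → A)
    (hβ : ∀ i < π.length, β i ∈ SP K y 1) {n : ℕ} {u : A} (hu : u ∈ SP K y n) :
    mw π β u ∈ SP K y n := by
  induction π with
  | nil => exact hu
  | cons s π ih =>
    have h1 := ih fun i hi => hβ i (by rw [List.length_cons]; omega)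
    have h2 := hβ π.length (by rw [List.length_cons]; omega)
    unfold mw
    split_ifs
    · exact sp_anti y (by omega) (sp_mul y h2 h1)
    · exact sp_anti y (by omega) (sp_mul y h1 h2)

variable {F : Type} [Field F] [Module F A] [Algebra F K] [IsScalarTower F K A]

lemma sp_lvl {m : ℕ} (y : Fin m → A) {T : Finset (FreeMagma ℕ)} {c : FreeMagma ℕ → F}
    {μ : Multiset ℕ} (hT : ∀ w ∈ T, lets w = μ) {x t : ℕ} {π : List Bool} (hπ : π.length ≤ t)
    (q : ℕ ⊕ ℕ → A) (hq : ∀ z ∈ ZZ t μ.toFinset x, q z ∈ SP K y 1) {n : ℕ} {u : A}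
    (hu : u ∈ SP K y n) : lvl T c x π q u ∈ SP K y (n * μ.count x) := by
  unfold lvl pe
  refine Submodule.sum_mem _ fun w hw => ?_
  rw [← algebraMap_smul K]
  refine Submodule.smul_mem _ _ ?_
  rw [← hT w hw]
  refine sp_lift y _ x n ?_ w fun i hi hix => ?_
  · rw [update_self]
    refine sp_mw y π _ (fun i hi => ?_) hu
    apply hq
    unfold ZZ
    rw [Finset.inl_mem_disjSum, Finset.mem_range]
    omega
  · rw [update_of_ne hix]
    apply hq
    unfold ZZ
    rw [Finset.inr_mem_disjSum, Finset.mem_erase, Multiset.mem_toFinset, ← hT w hw]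
    exact ⟨hix, hi⟩

/-- long nests vanish -/
theorem nests_vanish [Infinite K] (hLN : ∀ m : ℕ, ∃ N : ℕ, ∀ (y : Fin m → A)
      (w : FreeMagma (Fin m)), N ≤ w.length → FreeMagma.lift y w = 0)
    {T : Finset (FreeMagma ℕ)} {c : FreeMagma ℕ → F}
    {μ : Multiset ℕ} (hT : ∀ w ∈ T, lets w = μ) {x t : ℕ} (hx : 2 ≤ μ.count x)
    (hadd : ∀ z ∈ μ, ∀ (y : ℕ → A) u v, pe T c (update y z (u + v)) =
      pe T c (update y z u) + pe T c (update y z v)) :
    ∃ r : ℕ, ∀ L : List (List Bool × (ℕ ⊕ ℕ → A)), L.length = r → (∀ p ∈ L, p.1.length ≤ t) →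
      ∀ a : A, L.foldr (fun p u => lvl T c x p.1 p.2 u) a = 0 := by
  classical
  set Z := ZZ t μ.toFinset x with hZ
  have hxμ : x ∈ μ := Multiset.count_pos.mp (by omega)
  let e : Option Z ≃ Fin (Fintype.card (Option Z)) := Fintype.equivFin _
  obtain ⟨N, hN⟩ := hLN (Fintype.card (Option Z))
  obtain ⟨r, hr⟩ : ∃ r, N ≤ (μ.count x) ^ r := by
    refine ⟨N, ?_⟩
    exact (Nat.lt_two_pow_self).le.trans (Nat.pow_le_pow_left hx N)
  refine ⟨r, fun L hL hLt a => ?_⟩
  set L' : List (((ℕ ⊕ ℕ → A) → A → A) × (ℕ ⊕ ℕ → A)) :=
    L.map fun p => (lvl T c x p.1, p.2) with hL'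
  have e1 : L.foldr (fun p u => lvl T c x p.1 p.2 u) a = NS L' a := by
    unfold NS
    rw [hL', List.foldr_map]
  rw [e1]
  have hlev : ∀ p ∈ L', Lev K (μ.count x) (Sum.elim (fun _ => μ.count x) (fun i => μ.count i))
      Z p.1 := by
    intro p hp
    rw [hL', List.mem_map] at hp
    obtain ⟨p, hp, rfl⟩ := hp
    exact lvl_lev hT hxμ hadd (hLt p hp)
  refine deid hx (fun z hz => ?_) L' hlev 1 le_rfl (fun u => u) (fun _ _ => rfl)
    (fun l u => by rw [pow_one]) (fun q c' => ?_) a
  · rw [hZ] at hz
    unfold ZZ at hz
    rcases z with j | i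
    · exact le_trans (by norm_num) hx
    · rw [Finset.inr_mem_disjSum, Finset.mem_erase, Multiset.mem_toFinset] at hz
      exact Multiset.count_pos.mpr hz.2
  · -- identified parameters
    set y : Fin (Fintype.card (Option Z)) → A := fun k =>
      ((e.symm k).elim c' fun z => q z) with hy
    have hyc : c' ∈ SP K y 1 := by
      have := sp_gen (K := K) y (e none)
      rw [hy] at this
      simpa using this
    have hyq : ∀ z ∈ Z, q z ∈ SP K y 1 := by
      intro z hz
      have := sp_gen (K := K) y (e (some ⟨z, hz⟩))
      rw [hy] at this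
      simpa using this
    have hM : L'.map Prod.fst = L.map fun p => lvl T c x p.1 := by
      rw [hL', List.map_map]
      rfl
    rw [hM]
    have hall : ∀ L : List (List Bool × (ℕ ⊕ ℕ → A)), (∀ p ∈ L, p.1.length ≤ t) →
        NI (L.map fun p => lvl T c x p.1) q c' ∈ SP K y ((μ.count x) ^ L.length) := by
      intro L
      induction L with
      | nil => exact fun _ => hyc
      | cons p L ih =>
        intro h
        rw [List.map_cons, NI_cons, List.length_cons, pow_succ]
        exact sp_lvl y hT (h p (List.mem_cons_self ..)) q hyq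
          (ih fun p' hp' => h p' (List.mem_cons_of_mem _ hp'))
    have h1 := hall L hLt
    rw [hL] at h1
    have h2 := sp_anti (K := K) y hr h1
    have h3 : SP K y N = ⊥ := by
      unfold SP
      rw [Submodule.span_eq_bot]
      rintro u ⟨w, hw, rfl⟩
      exact hN y w hw
    rw [h3] at h2
    exact h2

end sp

end FF

end Pool.Agent.TP
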