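import Pool.Agent.Helper59_TP3.FF2

/-!
# MP_ce3ba7_al, characteristic 3, module FF, part 3 (helper59)

Bounded nests of a polynomial which is not an identity of the maximal algebra do not vanish.
-/

set_option autoImplicit false
set_option linter.unusedSectionVars false
set_option linter.unusedVariables false

namespace Pool.Agent.TP

namespace FF

open Function H67 H52

section
variable {F : Type} [Field F] {S : Set (MonoidAlgebra F (FreeMagma ℕ))}
variable {B : Type} [NonUnitalNonAssocRing B] [Module F B] [IsScalarTower F B B]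
  [SMulCommClass F B B] {x : ℕ → B}

/-- `V` multiplied by words of length at most `s` -/
def ML (s : ℕ) (V : Set B) : Set B :=
  {b | ∃ (π : List Bool) (β : ℕ → B) (a : B), π.length ≤ s ∧ a ∈ V ∧ b = mw π β a}

lemma ml_self (s : ℕ) (V : Set B) {a : B} (ha : a ∈ V) : a ∈ ML s V :=
  ⟨[], fun _ => 0, a, Nat.zero_le _, ha, rfl⟩

lemma ml_mono {s s' : ℕ} (h : s ≤ s') (V : Set B) : ML s V ⊆ ML s' V := by
  rintro b ⟨π, β, a, h1, h2, h3⟩
  exact ⟨π, β, a, h1.trans h, h2, h3⟩

lemma span_mw {s : ℕ} {V : Set B} (π : List Bool) (β : ℕ → B) {u : B}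
    (hu : u ∈ Submodule.span F (ML s V)) :
    mw π β u ∈ Submodule.span F (ML (π.length + s) V) := by
  induction hu using Submodule.span_induction with
  | mem u hu =>
    obtain ⟨π', β', a, h1, h2, rfl⟩ := hu
    rw [mw_append]
    exact Submodule.subset_span ⟨_, _, a, by rw [List.length_append]; omega, h2, rfl⟩
  | zero => rw [mw_zero]; exact Submodule.zero_mem _
  | add a b _ _ ha hb => rw [mw_add]; exact Submodule.add_mem _ ha hb
  | smul c a _ ha => rw [mw_smul]; exact Submodule.smul_mem _ _ ha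

lemma span_mull {s : ℕ} {V : Set B} (b : B) {u : B} (hu : u ∈ Submodule.span F (ML s V)) :
    b * u ∈ Submodule.span F (ML (s + 1) V) := by
  have := span_mw (F := F) [true] (fun _ => b) hu
  rw [add_comm s 1]
  exact this

/-- elements of `B` under substitution: bounded -/
lemma bounded (h : MaxAlg F S B x) (b : B) : ∃ t : ℕ, ∀ (V : Set B) (s : ℕ) (Φ : B →ₙₐ[F] B),
    (∀ i, Φ (x i) ∈ Submodule.span F (ML s V)) → Φ b ∈ Submodule.span F (ML (t + s) V) := by
  obtain ⟨f, rfl⟩ := h.gen b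
  refine fr_induction (p := fun f => ∃ t : ℕ, ∀ (V : Set B) (s : ℕ) (Φ : B →ₙₐ[F] B),
    (∀ i, Φ (x i) ∈ Submodule.span F (ML s V)) →
      Φ (ev (F := F) x f) ∈ Submodule.span F (ML (t + s) V)) (fun w => ?_) ?_ ?_ f
  · induction w using FreeMagma.recOnMul with
    | ih1 i =>
      refine ⟨0, fun V s Φ hΦ => ?_⟩
      rw [ev_mo, FreeMagma.lift_of, Nat.zero_add]
      exact hΦ i
    | ih2 v w _ ihw =>
      obtain ⟨t, ht⟩ := ihw
      refine ⟨t + 1, fun V s Φ hΦ => ?_⟩
      rw [mo_mul, map_mul, map_mul]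
      have := span_mull (F := F) (Φ (ev (F := F) x (mo F v))) (ht V s Φ hΦ)
      rwa [show t + s + 1 = t + 1 + s by ring] at this
  · rintro a b ⟨t, ht⟩ ⟨t', ht'⟩
    refine ⟨max t t', fun V s Φ hΦ => ?_⟩
    rw [map_add, map_add]
    refine Submodule.add_mem _ ?_ ?_
    · exact Submodule.span_mono (ml_mono (Nat.add_le_add_right (le_max_left _ _) s) V)
        (ht V s Φ hΦ)
    · exact Submodule.span_mono (ml_mono (Nat.add_le_add_right (le_max_right _ _) s) V)
        (ht' V s Φ hΦ)
  · rintro c a ⟨t, ht⟩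
    refine ⟨t, fun V s Φ hΦ => ?_⟩
    rw [map_smul, map_smul]
    exact Submodule.smul_mem _ _ (ht V s Φ hΦ)

/-- values of the polynomial with argument `z` in `W` -/
def PS (T : Finset (FreeMagma ℕ)) (c : FreeMagma ℕ → F) (z : ℕ) (W : Set B) : Set B :=
  {b | ∃ (y : ℕ → B) (a : B), a ∈ W ∧ b = pe T c (update y z a)}

lemma pe_map (T : Finset (FreeMagma ℕ)) (c : FreeMagma ℕ → F) (Φ : B →ₙₐ[F] B) (y : ℕ → B) :
    Φ (pe T c y) = pe T c fun i => Φ (y i) := by
  unfold pe
  rw [map_sum]
  refine Finset.sum_congr rfl fun w _ => ?_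
  rw [map_smul]
  congr 1
  have h1 : FreeMagma.lift y w = ev (F := F) y (mo F w) := (ev_mo y w).symm
  rw [h1, ev_comp, ev_mo]

variable {T : Finset (FreeMagma ℕ)} {c : FreeMagma ℕ → F} {μ : Multiset ℕ}
  (hT : ∀ w ∈ T, lets w = μ) {z : ℕ}
  (hadd : ∀ (y : ℕ → B) u v, pe T c (update y z (u + v)) =
      pe T c (update y z u) + pe T c (update y z v))
include hT hadd

lemma ps_span (y : ℕ → B) {W : Set B} {u : B} (hu : u ∈ Submodule.span F W) :
    pe T c (update y z u) ∈ Submodule.span F (PS T c z W) := by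
  induction hu using Submodule.span_induction with
  | mem u hu => exact Submodule.subset_span ⟨y, u, hu, rfl⟩
  | zero =>
    have := hadd y 0 0
    rw [add_zero] at this
    rw [left_eq_add.mp this]
    exact Submodule.zero_mem _
  | add a b _ _ ha hb => rw [hadd]; exact Submodule.add_mem _ ha hb
  | smul l a _ ha =>
    rw [pe_scale (K := F) c (n := μ.count z) fun w hw => by rw [hT w hw]]
    exact Submodule.smul_mem _ _ ha

/-- elements of the T-ideal generated by the polynomial -/
lemma bounded2 (h : MaxAlg F S B x) {b : B}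
    (hb : b ∈ Submodule.span F {b | ∃ (π : List Bool) (β y : ℕ → B), b = mw π β (pe T c y)}) :
    ∃ s t : ℕ, ∀ (V : Set B) (s' : ℕ) (Φ : B →ₙₐ[F] B),
      (∀ i, Φ (x i) ∈ Submodule.span F (ML s' V)) →
        Φ b ∈ Submodule.span F (ML s (PS T c z (ML (t + s') V))) := by
  have mono : ∀ {s s1 t t1 s' : ℕ} {V : Set B}, s ≤ s1 → t ≤ t1 →
      Submodule.span F (ML s (PS T c z (ML (t + s') V))) ≤
        Submodule.span F (ML s1 (PS T c z (ML (t1 + s') V))) := by
    intro s s1 t t1 s' V h1 h2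
    refine Submodule.span_mono ?_
    rintro b ⟨π, β, a, h3, ⟨y, a', h4, rfl⟩, rfl⟩
    exact ⟨π, β, _, h3.trans h1, ⟨y, a', ml_mono (Nat.add_le_add_right h2 _) V h4, rfl⟩, rfl⟩
  induction hb using Submodule.span_induction with
  | mem b hb =>
    obtain ⟨π, β, y, rfl⟩ := hb
    obtain ⟨t, ht⟩ := bounded h (y z)
    refine ⟨π.length, t, fun V s' Φ hΦ => ?_⟩
    rw [mw_map Φ (map_mul Φ), pe_map]
    have e : (fun i => Φ (y i)) = update (fun i => Φ (y i)) z (Φ (y z)) :=
      (update_eq_self z (fun i => Φ (y i))).symm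
    rw [e]
    have h1 := ps_span hT hadd (fun i => Φ (y i)) (ht V s' Φ hΦ)
    have h2 : pe T c (update (fun i => Φ (y i)) z (Φ (y z))) ∈
        Submodule.span F (ML 0 (PS T c z (ML (t + s') V))) :=
      Submodule.span_mono (fun a ha => ml_self 0 _ ha) h1
    have h3 := span_mw (F := F) π (fun i => Φ (β i)) h2
    rwa [add_zero] at h3
  | zero => exact ⟨0, 0, fun V s' Φ _ => by rw [map_zero]; exact Submodule.zero_mem _⟩
  | add a b _ _ ha hb =>
    obtain ⟨s, t, hst⟩ := ha
    obtain ⟨s1, t1, hst1⟩ := hb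
    refine ⟨max s s1, max t t1, fun V s' Φ hΦ => ?_⟩
    rw [map_add]
    refine Submodule.add_mem _ ?_ ?_
    · exact mono (le_max_left _ _) (le_max_left _ _) (hst V s' Φ hΦ)
    · exact mono (le_max_right _ _) (le_max_right _ _) (hst1 V s' Φ hΦ)
  | smul l a _ ha =>
    obtain ⟨s, t, hst⟩ := ha
    refine ⟨s, t, fun V s' Φ hΦ => ?_⟩
    rw [map_smul]
    exact Submodule.smul_mem _ _ (hst V s' Φ hΦ)

omit hadd in
lemma phi_T : TIdeal F B (Submodule.span F
    {b | ∃ (π : List Bool) (β y : ℕ → B), b = mw π β (pe T c y)}) := by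
  refine ⟨fun a ha b => ⟨?_, ?_⟩, fun Φ a ha => ?_⟩
  · induction ha using Submodule.span_induction with
    | mem a ha =>
      obtain ⟨π, β, y, rfl⟩ := ha
      change mw [false] (fun _ => b) (mw π β (pe T c y)) ∈ _
      rw [mw_append]
      exact Submodule.subset_span ⟨_, _, y, rfl⟩
    | zero => rw [zero_mul]; exact Submodule.zero_mem _
    | add a a' _ _ h1 h2 => rw [add_mul]; exact Submodule.add_mem _ h1 h2
    | smul c a _ h1 => rw [smul_mul_assoc]; exact Submodule.smul_mem _ _ h1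
  · induction ha using Submodule.span_induction with
    | mem a ha =>
      obtain ⟨π, β, y, rfl⟩ := ha
      change mw [true] (fun _ => b) (mw π β (pe T c y)) ∈ _
      rw [mw_append]
      exact Submodule.subset_span ⟨_, _, y, rfl⟩
    | zero => rw [mul_zero]; exact Submodule.zero_mem _
    | add a a' _ _ h1 h2 => rw [mul_add]; exact Submodule.add_mem _ h1 h2
    | smul c a _ h1 => rw [mul_smul_comm]; exact Submodule.smul_mem _ _ h1
  · induction ha using Submodule.span_induction with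
    | mem a ha =>
      obtain ⟨π, β, y, rfl⟩ := ha
      refine Submodule.subset_span ⟨π, fun i => Φ (β i), fun i => Φ (y i), ?_⟩
      rw [mw_map Φ (map_mul Φ), pe_map]
    | zero => rw [map_zero]; exact Submodule.zero_mem _
    | add a a' _ _ h1 h2 => rw [map_add]; exact Submodule.add_mem _ h1 h2
    | smul c a _ h1 => rw [map_smul]; exact Submodule.smul_mem _ _ h1

/-- nests of bounded word length do not vanish -/
theorem nests_exist (h : MaxAlg F S B x) (hne : ∃ y : ℕ → B, pe T c y ≠ 0) :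
    ∃ t : ℕ, ∀ r : ℕ, ∃ L : List (List Bool × (ℕ ⊕ ℕ → B)), L.length = r ∧
      (∀ p ∈ L, p.1.length ≤ t) ∧ ∃ a : B, L.foldr (fun p u => lvl T c z p.1 p.2 u) a ≠ 0 := by
  set I : Submodule F B := Submodule.span F
    {b | ∃ (π : List Bool) (β y : ℕ → B), b = mw π β (pe T c y)} with hI
  have hIT : TIdeal F B I := phi_T hT
  have hI0 : I ≠ ⊥ := by
    obtain ⟨y, hy⟩ := hne
    intro h0
    apply hy
    have : pe T c y ∈ I := Submodule.subset_span ⟨[], fun _ => 0, y, rfl⟩
    rwa [h0, Submodule.mem_bot] at this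
  obtain ⟨n, hn⟩ := h.max I hIT hI0
  obtain ⟨s, t0, hst⟩ := bounded2 hT hadd h (hn x)
  refine ⟨t0 + s, fun r => ?_⟩
  -- the sets of nests
  let NT : ℕ → Set B := fun r => {b | ∃ L : List (List Bool × (ℕ ⊕ ℕ → B)), L.length = r ∧
      (∀ p ∈ L, p.1.length ≤ t0 + s) ∧ ∃ a : B, b = L.foldr (fun p u => lvl T c z p.1 p.2 u) a}
  have hPS : ∀ r, PS T c z (ML (t0 + s) (NT r)) ⊆ NT (r + 1) := by
    rintro r b ⟨y, a, ⟨π, β, a', h1, ⟨L, hL, hLt, a0, rfl⟩, rfl⟩, rfl⟩
    refine ⟨(π, Sum.elim β y) :: L, by rw [List.length_cons, hL], ?_, a0, ?_⟩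
    · intro p hp
      rcases List.mem_cons.mp hp with rfl | hp
      · exact h1
      · exact hLt p hp
    · rw [List.foldr_cons]
      rfl
  have key : ∀ r, ∀ v : ℕ → B, FreeMagma.lift v (dd (n * r) 0) ∈
      Submodule.span F (ML s (NT r)) := by
    intro r
    induction r with
    | zero =>
      intro v
      rw [Nat.mul_zero, dd_zero, FreeMagma.lift_of]
      exact Submodule.subset_span (ml_self s _ ⟨[], rfl, fun p hp => by simp at hp, v 0, rfl⟩)
    | succ r ih =>
      intro v
      have e1 : n * (r + 1) = n + n * r := by ring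
      have e2 := lift_dd_dd (n * r) v n 0
      rw [Nat.zero_mul] at e2
      rw [e1, ← e2]
      obtain ⟨Φ, hΦ⟩ := h.rel.ext fun i => FreeMagma.lift v (dd (n * r) (i * 2 ^ (n * r)))
      have e3 : FreeMagma.lift (fun i => FreeMagma.lift v (dd (n * r) (i * 2 ^ (n * r))))
          (dd n 0) = Φ (FreeMagma.lift x (dd n 0)) := by
        have h3 : FreeMagma.lift x (dd n 0) = ev (F := F) x (mo F (dd n 0)) := (ev_mo x _).symm
        rw [h3, ev_comp, ev_mo]
        congr 1
        congr 1
        funext i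
        exact (hΦ i).symm
      rw [e3]
      have h4 := hst (NT r) s Φ (fun i => by
        rw [hΦ]
        have h5 := ih fun k => v (i * 2 ^ (n * r) + k)
        have h6 : FreeMagma.lift (fun k => v (i * 2 ^ (n * r) + k)) (dd (n * r) 0) =
            FreeMagma.lift v (dd (n * r) (i * 2 ^ (n * r))) :=
          lift_dd (n * r) 0 _ _ (i * 2 ^ (n * r)) fun k _ => by rw [Nat.zero_add]
        rwa [h6] at h5)
      refine Submodule.span_mono ?_ h4
      rintro b ⟨π, β, a, h5, h6, rfl⟩
      exact ⟨π, β, a, h5, hPS r h6, rfl⟩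
  by_contra hcon
  push Not at hcon
  have h0 : ∀ b ∈ ML s (NT r), b = 0 := by
    rintro b ⟨π, β, a, h1, ⟨L, hL, hLt, a0, rfl⟩, rfl⟩
    rw [hcon L hL hLt a0, mw_zero]
  have h1 : Submodule.span F (ML s (NT r)) = ⊥ := by
    rw [Submodule.span_eq_bot]
    exact h0
  have h2 := key r x
  rw [h1, Submodule.mem_bot] at h2
  exact h.nd _ _ h2

end

end FF

end Pool.Agent.TP
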