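import Pool.Agent.Helper59_TP3.FF3

/-!
# MP_ce3ba7_al, characteristic 3, module FF, part 4 (helper59)

A maximal algebra with locally nilpotent scalar extensions satisfies a multilinear identity.
-/

set_option autoImplicit false
set_option linter.unusedSectionVars false
set_option linter.unusedVariables false

namespace Pool.Agent.TP

namespace FF

open Function H67 H52

/-! ### supports -/

section supp

variable {F : Type} [Field F]

/-- polynomials all of whose monomials have letter set exactly `U` and length at most `D` -/
noncomputable def SU (F : Type) [Field F] (U : Finset ℕ) (D : ℕ) : Submodule F (Fr F) :=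
  Submodule.span F {g | ∃ w : FreeMagma ℕ, (lets w).toFinset = U ∧ (lets w).card ≤ D ∧
    g = mo F w}

lemma su_card {U : Finset ℕ} {D : ℕ} (h : SU F U D ≠ ⊥) : U.card ≤ D := by
  by_contra hcon
  apply h
  unfold SU
  rw [Submodule.span_eq_bot]
  rintro g ⟨w, hw, hD, rfl⟩
  exfalso
  apply hcon
  rw [← hw]
  exact (Multiset.toFinset_card_le _).trans hD

lemma su_rep {U : Finset ℕ} {D : ℕ} {g : Fr F} (hg : g ∈ SU F U D) :
    ∃ (T : Finset (FreeMagma ℕ)) (c : FreeMagma ℕ → F), g = ∑ w ∈ T, c w • mo F w ∧
      ∀ w ∈ T, (lets w).toFinset = U ∧ (lets w).card ≤ D := by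
  classical
  unfold SU at hg
  induction hg using Submodule.span_induction with
  | mem g hg =>
    obtain ⟨w, h1, h2, rfl⟩ := hg
    exact ⟨{w}, fun _ => 1, by simp, fun v hv => by
      rw [Finset.mem_singleton] at hv; subst hv; exact ⟨h1, h2⟩⟩
  | zero => exact ⟨∅, fun _ => 0, by simp, fun v hv => by simp at hv⟩
  | add a b _ _ ha hb =>
    obtain ⟨T, c, rfl, hT⟩ := ha
    obtain ⟨U', d, rfl, hU⟩ := hb
    refine ⟨T ∪ U', fun w => (if w ∈ T then c w else 0) + (if w ∈ U' then d w else 0), ?_, ?_⟩
    · simp only [add_smul, Finset.sum_add_distrib, ite_smul, zero_smul, Finset.sum_ite_mem]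
      rw [Finset.inter_eq_right.2 Finset.subset_union_left,
        Finset.inter_eq_right.2 Finset.subset_union_right]
    · intro w hw
      rcases Finset.mem_union.mp hw with h | h
      · exact hT w h
      · exact hU w h
  | smul a b _ hb =>
    obtain ⟨T, c, rfl, hT⟩ := hb
    exact ⟨T, fun w => a * c w, by rw [Finset.smul_sum]; simp only [smul_smul], hT⟩

/-- substitution `z -> z + z'` -/
noncomputable def th (F : Type) [Field F] (z z' : ℕ) : Fr F →ₙₐ[F] Fr F :=
  ev (update (fun i => mo F (FreeMagma.of i)) z (mo F (FreeMagma.of z) + mo F (FreeMagma.of z')))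

/-- substitution `z -> z'` -/
noncomputable def th' (F : Type) [Field F] (z z' : ℕ) : Fr F →ₙₐ[F] Fr F :=
  ev (update (fun i => mo F (FreeMagma.of i)) z (mo F (FreeMagma.of z')))

lemma th_not {z z' : ℕ} (w : FreeMagma ℕ) (hz : z ∉ lets w) : th F z z' (mo F w) = mo F w := by
  unfold th
  rw [ev_mo]
  induction w using FreeMagma.recOnMul with
  | ih1 i =>
    rw [lets_of, Multiset.mem_singleton] at hz
    rw [FreeMagma.lift_of, update_of_ne (Ne.symm hz)]
  | ih2 a b iha ihb =>
    rw [lets_mul, Multiset.mem_add] at hz
    push Not at hz
    rw [map_mul, iha hz.1, ihb hz.2, mo_mul]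

lemma th'_mo {z z' : ℕ} (w : FreeMagma ℕ) (hz : z ∈ lets w) : ∃ v : FreeMagma ℕ,
    th' F z z' (mo F w) = mo F v ∧ (lets v).toFinset ⊆ insert z' (lets w).toFinset ∧
      z' ∈ lets v ∧ (lets v).card = (lets w).card ∧ (lets w).toFinset ⊆ insert z (lets v).toFinset := by
  classical
  have key : ∀ w : FreeMagma ℕ, ∃ v : FreeMagma ℕ,
      th' F z z' (mo F w) = mo F v ∧ (lets v).toFinset ⊆ insert z' (lets w).toFinset ∧
      (z ∈ lets w → z' ∈ lets v) ∧ (lets v).card = (lets w).card ∧
        (lets w).toFinset ⊆ insert z (lets v).toFinset := by
    intro w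
    unfold th'
    induction w using FreeMagma.recOnMul with
    | ih1 i =>
      rw [ev_mo, FreeMagma.lift_of]
      by_cases h : i = z
      · subst h
        refine ⟨FreeMagma.of z', by rw [update_self], ?_, ?_, rfl, ?_⟩
        · rw [lets_of, lets_of]; simp
        · intro _; rw [lets_of]; simp
        · rw [lets_of, lets_of]; simp
      · refine ⟨FreeMagma.of i, by rw [update_of_ne h], Finset.subset_insert _ _, ?_, rfl,
          Finset.subset_insert _ _⟩
        intro h'
        rw [lets_of, Multiset.mem_singleton] at h'
        exact absurd h'.symm h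
    | ih2 a b iha ihb =>
      obtain ⟨va, h1, h2, h3, h4, h5⟩ := iha
      obtain ⟨vb, k1, k2, k3, k4, k5⟩ := ihb
      refine ⟨va * vb, ?_, ?_, ?_, ?_, ?_⟩
      · rw [mo_mul, map_mul, h1, k1, mo_mul]
      · rw [lets_mul, lets_mul, Multiset.toFinset_add, Multiset.toFinset_add]
        intro i hi
        rcases Finset.mem_union.mp hi with h | h
        · have := h2 h
          rw [Finset.mem_insert] at this ⊢
          rw [Finset.mem_union]
          tauto
        · have := k2 h
          rw [Finset.mem_insert] at this ⊢
          rw [Finset.mem_union]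
          tauto
      · rw [lets_mul, lets_mul, Multiset.mem_add, Multiset.mem_add]
        rintro (h | h)
        · exact Or.inl (h3 h)
        · exact Or.inr (k3 h)
      · rw [lets_mul, lets_mul, Multiset.card_add, Multiset.card_add, h4, k4]
      · rw [lets_mul, lets_mul, Multiset.toFinset_add, Multiset.toFinset_add]
        intro i hi
        rcases Finset.mem_union.mp hi with h | h
        · have := h5 h
          rw [Finset.mem_insert] at this ⊢
          rw [Finset.mem_union]
          tauto
        · have := k5 h
          rw [Finset.mem_insert] at this ⊢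
          rw [Finset.mem_union]
          tauto
  obtain ⟨v, h1, h2, h3, h4, h5⟩ := key w
  exact ⟨v, h1, h2, h3 hz, h4, h5⟩

lemma th'_not {z z' : ℕ} (w : FreeMagma ℕ) (hz : z ∉ lets w) : th' F z z' (mo F w) = mo F w := by
  unfold th'
  rw [ev_mo]
  induction w using FreeMagma.recOnMul with
  | ih1 i =>
    rw [lets_of, Multiset.mem_singleton] at hz
    rw [FreeMagma.lift_of, update_of_ne (Ne.symm hz)]
  | ih2 a b iha ihb =>
    rw [lets_mul, Multiset.mem_add] at hz
    push Not at hz
    rw [map_mul, iha hz.1, ihb hz.2, mo_mul]

lemma su_mul {U V : Finset ℕ} {D D' : ℕ} {a b : Fr F} (ha : a ∈ SU F U D) (hb : b ∈ SU F V D') :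
    a * b ∈ SU F (U ∪ V) (D + D') := by
  classical
  unfold SU at ha
  induction ha using Submodule.span_induction with
  | mem a ha =>
    obtain ⟨w, h1, h2, rfl⟩ := ha
    unfold SU at hb
    induction hb using Submodule.span_induction with
    | mem b hb =>
      obtain ⟨v, h3, h4, rfl⟩ := hb
      refine Submodule.subset_span ⟨w * v, ?_, ?_, (mo_mul w v).symm⟩
      · rw [lets_mul, Multiset.toFinset_add, h1, h3]
      · rw [lets_mul, Multiset.card_add]
        omega
    | zero => rw [mul_zero]; exact Submodule.zero_mem _
    | add x z _ _ hx hz => rw [mul_add]; exact Submodule.add_mem _ hx hz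
    | smul l x _ hx => rw [mul_smul_comm]; exact Submodule.smul_mem _ _ hx
  | zero => rw [zero_mul]; exact Submodule.zero_mem _
  | add x z _ _ hx hz => rw [add_mul]; exact Submodule.add_mem _ hx hz
  | smul l x _ hx => rw [smul_mul_assoc]; exact Submodule.smul_mem _ _ hx

lemma su_mo (w : FreeMagma ℕ) : mo F w ∈ SU F (lets w).toFinset (lets w).card :=
  Submodule.subset_span ⟨w, rfl, le_rfl, rfl⟩

lemma eqf {P Q R : Finset ℕ} {z' : ℕ} (h1 : P ⊆ insert z' R) (h2 : Q ⊆ insert z' R)
    (h3 : R ⊆ P ∪ Q) (h4 : z' ∈ P ∪ Q) : P ∪ Q = insert z' R :=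
  Finset.Subset.antisymm (Finset.union_subset h1 h2) (Finset.insert_subset h4 h3)

/-- the mixed part of the polarization -/
lemma mixed {z z' : ℕ} (hzz : z ≠ z') (w : FreeMagma ℕ) (hz : z ∈ lets w) (hz' : z' ∉ lets w) :
    th F z z' (mo F w) - mo F w - th' F z z' (mo F w) ∈
      SU F (insert z' (lets w).toFinset) (lets w).card := by
  classical
  induction w using FreeMagma.recOnMul with
  | ih1 i =>
    rw [lets_of, Multiset.mem_singleton] at hz
    subst hz
    have e1 : th F z z' (mo F (FreeMagma.of z)) = mo F (FreeMagma.of z) + mo F (FreeMagma.of z') := by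
      unfold th
      rw [ev_mo, FreeMagma.lift_of, update_self]
    have e2 : th' F z z' (mo F (FreeMagma.of z)) = mo F (FreeMagma.of z') := by
      unfold th'
      rw [ev_mo, FreeMagma.lift_of, update_self]
    rw [e1, e2, add_sub_cancel_left, sub_self]
    exact Submodule.zero_mem _
  | ih2 a b iha ihb =>
    rw [lets_mul, Multiset.mem_add] at hz hz'
    push Not at hz'
    have hU : insert z' (lets (a * b)).toFinset =
        insert z' ((lets a).toFinset ∪ (lets b).toFinset) := by
      rw [lets_mul, Multiset.toFinset_add]
    have hD : (lets (a * b)).card = (lets a).card + (lets b).card := by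
      rw [lets_mul, Multiset.card_add]
    rw [hU, hD, mo_mul, map_mul, map_mul]
    by_cases ha : z ∈ lets a
    · have ia := iha ha hz'.1
      set α := th F z z' (mo F a) - mo F a - th' F z z' (mo F a) with hα
      have ea : th F z z' (mo F a) = mo F a + th' F z z' (mo F a) + α := by rw [hα]; abel
      by_cases hb : z ∈ lets b
      · have ib := ihb hb hz'.2
        set β := th F z z' (mo F b) - mo F b - th' F z z' (mo F b) with hβ
        have eb : th F z z' (mo F b) = mo F b + th' F z z' (mo F b) + β := by rw [hβ]; abel
        obtain ⟨va, h1, h2, h3, h4, h5⟩ := th'_mo (F := F) (z' := z') a ha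
        obtain ⟨vb, k1, k2, k3, k4, k5⟩ := th'_mo (F := F) (z' := z') b hb
        rw [ea, eb]
        have e : (mo F a + th' F z z' (mo F a) + α) * (mo F b + th' F z z' (mo F b) + β) -
            mo F a * mo F b - th' F z z' (mo F a) * th' F z z' (mo F b) =
            mo F a * th' F z z' (mo F b) + th' F z z' (mo F a) * mo F b + mo F a * β +
            th' F z z' (mo F a) * β + α * mo F b + α * th' F z z' (mo F b) + α * β := by
          simp only [add_mul, mul_add]; abel
        rw [e, h1, k1]
        have ma := su_mo (F := F) a
        have mb := su_mo (F := F) b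
        have mva := su_mo (F := F) va
        have mvb := su_mo (F := F) vb
        rw [h4] at mva
        rw [k4] at mvb
        have hza : z ∈ (lets a).toFinset := Multiset.mem_toFinset.mpr ha
        have hzb : z ∈ (lets b).toFinset := Multiset.mem_toFinset.mpr hb
        have h3' : z' ∈ (lets va).toFinset := Multiset.mem_toFinset.mpr h3
        have k3' : z' ∈ (lets vb).toFinset := Multiset.mem_toFinset.mpr k3
        have cast : ∀ {V : Finset ℕ} {g : Fr F}, g ∈ SU F V ((lets a).card + (lets b).card) →
            V = insert z' ((lets a).toFinset ∪ (lets b).toFinset) →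
            g ∈ SU F (insert z' ((lets a).toFinset ∪ (lets b).toFinset))
              ((lets a).card + (lets b).card) := by
          intro V g hg hV
          rw [← hV]
          exact hg
        set R := (lets a).toFinset ∪ (lets b).toFinset with hR
        have sa : (lets a).toFinset ⊆ R := Finset.subset_union_left
        have sb : (lets b).toFinset ⊆ R := Finset.subset_union_right
        refine Submodule.add_mem _ (Submodule.add_mem _ (Submodule.add_mem _ (Submodule.add_mem _
          (Submodule.add_mem _ (Submodule.add_mem _ ?_ ?_) ?_) ?_) ?_) ?_) ?_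
        · refine cast (su_mul ma mvb) (eqf (sa.trans (Finset.subset_insert _ _))
            (k2.trans (Finset.insert_subset_insert _ sb)) (Finset.union_subset
              Finset.subset_union_left (k5.trans (Finset.insert_subset
                (Finset.mem_union_left _ hza) Finset.subset_union_right)))
            (Finset.mem_union_right _ k3'))
        · refine cast (su_mul mva mb) (eqf (h2.trans (Finset.insert_subset_insert _ sa))
            (sb.trans (Finset.subset_insert _ _)) (Finset.union_subset
              (h5.trans (Finset.insert_subset (Finset.mem_union_right _ hzb)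
                Finset.subset_union_left)) Finset.subset_union_right)
            (Finset.mem_union_left _ h3'))
        · refine cast (su_mul ma ib) (eqf (sa.trans (Finset.subset_insert _ _))
            (Finset.insert_subset_insert _ sb) (Finset.union_subset
              Finset.subset_union_left ((Finset.subset_insert _ _).trans
                Finset.subset_union_right))
            (Finset.mem_union_right _ (Finset.mem_insert_self _ _)))
        · refine cast (su_mul mva ib) (eqf (h2.trans (Finset.insert_subset_insert _ sa))
            (Finset.insert_subset_insert _ sb) (Finset.union_subset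
              (h5.trans (Finset.insert_subset (Finset.mem_union_right _
                (Finset.mem_insert_of_mem hzb)) Finset.subset_union_left))
              ((Finset.subset_insert _ _).trans Finset.subset_union_right))
            (Finset.mem_union_right _ (Finset.mem_insert_self _ _)))
        · refine cast (su_mul ia mb) (eqf (Finset.insert_subset_insert _ sa)
            (sb.trans (Finset.subset_insert _ _)) (Finset.union_subset
              ((Finset.subset_insert _ _).trans Finset.subset_union_left)
              Finset.subset_union_right)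
            (Finset.mem_union_left _ (Finset.mem_insert_self _ _)))
        · refine cast (su_mul ia mvb) (eqf (Finset.insert_subset_insert _ sa)
            (k2.trans (Finset.insert_subset_insert _ sb)) (Finset.union_subset
              ((Finset.subset_insert _ _).trans Finset.subset_union_left)
              (k5.trans (Finset.insert_subset
                (Finset.mem_union_left _ (Finset.mem_insert_of_mem hza))
                Finset.subset_union_right)))
            (Finset.mem_union_left _ (Finset.mem_insert_self _ _)))
        · refine cast (su_mul ia ib) (eqf (Finset.insert_subset_insert _ sa)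
            (Finset.insert_subset_insert _ sb) (Finset.union_subset
              ((Finset.subset_insert _ _).trans Finset.subset_union_left)
              ((Finset.subset_insert _ _).trans Finset.subset_union_right))
            (Finset.mem_union_left _ (Finset.mem_insert_self _ _)))
      · rw [th_not b hb, th'_not b hb]
        have e : th F z z' (mo F a) * mo F b - mo F a * mo F b - th' F z z' (mo F a) * mo F b =
            α * mo F b := by rw [hα, sub_mul, sub_mul]
        rw [e]
        have := su_mul ia (su_mo (F := F) b)
        rwa [Finset.insert_union] at this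
    · have hb : z ∈ lets b := hz.resolve_left ha
      have ib := ihb hb hz'.2
      rw [th_not a ha, th'_not a ha]
      have e : mo F a * th F z z' (mo F b) - mo F a * mo F b - mo F a * th' F z z' (mo F b) =
          mo F a * (th F z z' (mo F b) - mo F b - th' F z z' (mo F b)) := by
        rw [mul_sub, mul_sub]
      rw [e]
      have := su_mul (su_mo (F := F) a) ib
      rwa [Finset.union_insert] at this

/-- polarization of a polynomial -/
lemma mixed_su {U : Finset ℕ} {D z z' : ℕ} (hz : z ∈ U) (hz' : z' ∉ U) {g : Fr F}
    (hg : g ∈ SU F U D) : th F z z' g - g - th' F z z' g ∈ SU F (insert z' U) D := by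
  unfold SU at hg
  induction hg using Submodule.span_induction with
  | mem g hg =>
    obtain ⟨w, h1, h2, rfl⟩ := hg
    have hzz : z ≠ z' := by rintro rfl; exact hz' hz
    have h3 := mixed (F := F) hzz w (by rw [← h1, Multiset.mem_toFinset] at hz; exact hz)
      (by rw [← h1, Multiset.mem_toFinset] at hz'; exact hz')
    rw [h1] at h3
    refine Submodule.span_mono ?_ h3
    rintro g ⟨v, h4, h5, rfl⟩
    exact ⟨v, h4, h5.trans h2, rfl⟩
  | zero => simp only [map_zero, sub_zero]; exact Submodule.zero_mem _
  | add a b _ _ ha hb =>
    have : th F z z' (a + b) - (a + b) - th' F z z' (a + b) =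
        (th F z z' a - a - th' F z z' a) + (th F z z' b - b - th' F z z' b) := by
      rw [map_add, map_add]; abel
    rw [this]
    exact Submodule.add_mem _ ha hb
  | smul c a _ ha =>
    have : th F z z' (c • a) - c • a - th' F z z' (c • a) =
        c • (th F z z' a - a - th' F z z' a) := by
      rw [map_smul, map_smul, smul_sub, smul_sub]
    rw [this]
    exact Submodule.smul_mem _ _ ha

variable {A : Type} [NonUnitalNonAssocRing A] [Module F A] [IsScalarTower F A A]
  [SMulCommClass F A A]

lemma ev_th (z z' : ℕ) (g : Fr F) (y : ℕ → A) : ev y (th F z z' g) =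
    ev (update y z (y z + y z')) g := by
  unfold th
  rw [ev_comp]
  congr 1
  congr 1
  funext i
  by_cases h : i = z
  · subst h
    rw [update_self, update_self, map_add, ev_of, ev_of]
  · rw [update_of_ne h, update_of_ne h, ev_of]

lemma ev_th' (z z' : ℕ) (g : Fr F) (y : ℕ → A) : ev y (th' F z z' g) =
    ev (update y z (y z')) g := by
  unfold th'
  rw [ev_comp]
  congr 1
  congr 1
  funext i
  by_cases h : i = z
  · subst h
    rw [update_self, update_self, ev_of]
  · rw [update_of_ne h, update_of_ne h, ev_of]

lemma ev_pe (T : Finset (FreeMagma ℕ)) (c : FreeMagma ℕ → F) (y : ℕ → A) :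
    ev y (∑ w ∈ T, c w • mo F w) = pe T c y := by
  rw [map_sum]
  unfold pe
  exact Finset.sum_congr rfl fun w _ => by rw [map_smul, ev_mo]

lemma ev_congr_su {U : Finset ℕ} {D : ℕ} {g : Fr F} (hg : g ∈ SU F U D) (y y' : ℕ → A)
    (h : ∀ i ∈ U, y i = y' i) : ev y g = ev y' g := by
  obtain ⟨T, c, rfl, hT⟩ := su_rep hg
  rw [ev_pe, ev_pe]
  refine pe_congr fun w hw a ha => h a ?_
  rw [← (hT w hw).1, Multiset.mem_toFinset]
  exact ha

/-- parts of an identity with given letter set are identities -/
lemma part_supp (T : Finset (FreeMagma ℕ)) (c : FreeMagma ℕ → F)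
    (hG : ∀ y : ℕ → A, pe T c y = 0) (U : Finset ℕ) (y : ℕ → A) :
    pe (T.filter fun w => (lets w).toFinset = U) c y = 0 := by
  classical
  induction U using Finset.strongInduction with
  | _ U ih =>
  have h1 := hG (fun a => if a ∈ U then y a else 0)
  have h2 : pe T c (fun a => if a ∈ U then y a else 0) =
      ∑ w ∈ T with (lets w).toFinset ⊆ U, c w • FreeMagma.lift y w := by
    unfold pe
    rw [Finset.sum_filter]
    refine Finset.sum_congr rfl fun w _ => ?_
    by_cases hsub : (lets w).toFinset ⊆ U
    · rw [if_pos hsub]
      rw [lift_congr (fun a => if a ∈ U then y a else 0) y w fun a ha => by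
        rw [if_pos (hsub (Multiset.mem_toFinset.2 ha))]]
    · rw [if_neg hsub]
      rw [Finset.not_subset] at hsub
      obtain ⟨a, ha, haU⟩ := hsub
      rw [lift_zero _ a (by rw [if_neg haU]) w (Multiset.mem_toFinset.1 ha), smul_zero]
  rw [h2] at h1
  rw [← Finset.sum_fiberwise_of_maps_to (t := U.powerset) (g := fun w => (lets w).toFinset)
    (fun w hw => Finset.mem_powerset.2 (Finset.mem_filter.1 hw).2)] at h1
  have h4 : ∀ U' ∈ U.powerset, ∑ w ∈ (T.filter fun w => (lets w).toFinset ⊆ U) with
      (lets w).toFinset = U', c w • FreeMagma.lift y w =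
      pe (T.filter fun w => (lets w).toFinset = U') c y := by
    intro U' hU'
    rw [Finset.filter_filter]
    unfold pe
    refine Finset.sum_congr (Finset.filter_congr fun w _ => ?_) fun _ _ => rfl
    constructor
    · rintro ⟨_, h⟩; exact h
    · intro h
      exact ⟨by rw [h]; exact Finset.mem_powerset.1 hU', h⟩
  rw [Finset.sum_congr rfl h4, ← Finset.insert_erase (Finset.mem_powerset_self U),
    Finset.sum_insert (Finset.notMem_erase _ _)] at h1
  rw [Finset.sum_eq_zero (fun U' hU' => ih U' ?_), add_zero] at h1
  · exact h1
  · rw [Finset.mem_erase, Finset.mem_powerset] at hU'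
    exact Finset.ssubset_iff_subset_ne.2 ⟨hU'.2, hU'.1⟩

end supp

end FF

end Pool.Agent.TP
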