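import Pool.Agent.Helper59_TP3.FF4
import Pool.Agent.Helper57_C3.Stmts

/-!
# MP_ce3ba7_al, characteristic 3, module FF, part 5 (helper59)

A maximal algebra with locally nilpotent scalar extensions satisfies a multilinear identity.
-/

set_option autoImplicit false
set_option linter.unusedSectionVars false
set_option linter.unusedVariables false

namespace Pool.Agent.TP

namespace FF

open Function H67 H52

/-! ### homogeneous parts over an infinite field -/

section parts

variable {K E : Type} [Field K] [AddCommGroup E] [Module K E]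

lemma sep [Infinite K] (M : Finset (Multiset ℕ)) (δ : Multiset ℕ → E)
    (h : ∀ l : ℕ → K, ∑ μ ∈ M, (μ.map l).prod • δ μ = 0) : ∀ μ ∈ M, δ μ = 0 := by
  classical
  intro μ hμ
  rw [← Module.forall_dual_apply_eq_zero_iff K]
  intro f
  have h1 : (∑ ν ∈ M, MvPolynomial.monomial (Multiset.toFinsupp ν) (f (δ ν)) :
      MvPolynomial ℕ K) = 0 := by
    apply MvPolynomial.funext
    intro l
    rw [map_sum, map_zero]
    have h2 := congrArg f (h l)
    rw [map_zero, map_sum] at h2
    rw [← h2]
    refine Finset.sum_congr rfl fun ν _ => ?_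
    rw [MvPolynomial.eval_monomial, map_smul, smul_eq_mul, mul_comm, Finset.prod_multiset_map_count]
    rfl
  have h2 := congrArg (MvPolynomial.coeff (Multiset.toFinsupp μ)) h1
  rw [MvPolynomial.coeff_sum, MvPolynomial.coeff_zero] at h2
  rw [← h2]
  symm
  rw [Finset.sum_eq_single μ]
  · rw [MvPolynomial.coeff_monomial, if_pos rfl]
  · intro ν _ hν
    rw [MvPolynomial.coeff_monomial, if_neg]
    intro h3
    exact hν (Multiset.toFinsupp.injective h3)
  · intro h3
    exact absurd hμ h3

end parts

section main

variable {F K : Type} [Field F] [Field K] [Algebra F K]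

section E
variable {E : Type} [NonUnitalNonAssocRing E] [Module K E] [IsScalarTower K E E]
  [SMulCommClass K E E] [Module F E] [IsScalarTower F K E]

/-- the part of multidegree `μ` -/
noncomputable def pt (T : Finset (FreeMagma ℕ)) (μ : Multiset ℕ) : Finset (FreeMagma ℕ) := by
  classical
  exact T.filter fun w => lets w = μ

lemma mem_pt {T : Finset (FreeMagma ℕ)} {μ : Multiset ℕ} {w : FreeMagma ℕ} :
    w ∈ pt T μ ↔ w ∈ T ∧ lets w = μ := by
  classical
  unfold pt
  rw [Finset.mem_filter]

/-- multidegrees -/
noncomputable def md (T : Finset (FreeMagma ℕ)) : Finset (Multiset ℕ) := by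
  classical
  exact T.image lets

lemma mem_md {T : Finset (FreeMagma ℕ)} {μ : Multiset ℕ} : μ ∈ md T ↔ ∃ w ∈ T, lets w = μ := by
  classical
  unfold md
  rw [Finset.mem_image]

lemma pe_parts {A : Type} [NonUnitalNonAssocRing A] [Module F A] (T : Finset (FreeMagma ℕ))
    (c : FreeMagma ℕ → F) (y : ℕ → A) : pe T c y = ∑ μ ∈ md T, pe (pt T μ) c y := by
  classical
  unfold pe md pt
  exact (Finset.sum_fiberwise_of_maps_to (fun w hw => Finset.mem_image_of_mem _ hw) _).symm

lemma pe_scale_parts (T : Finset (FreeMagma ℕ)) (c : FreeMagma ℕ → F) (y : ℕ → E) (l : ℕ → K) :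
    pe T c (fun i => l i • y i) = ∑ μ ∈ md T, (μ.map l).prod • pe (pt T μ) c y := by
  rw [pe_parts]
  refine Finset.sum_congr rfl fun μ _ => ?_
  exact pe_scale' c (fun w hw => (mem_pt.mp hw).2) y l

lemma pe_empty_part {A : Type} [NonUnitalNonAssocRing A] [Module F A] {T : Finset (FreeMagma ℕ)}
    {c : FreeMagma ℕ → F} {μ : Multiset ℕ} (h : μ ∉ md T) (y : ℕ → A) : pe (pt T μ) c y = 0 := by
  unfold pe
  refine Finset.sum_eq_zero fun w hw => ?_
  exact absurd (mem_md.mpr ⟨w, mem_pt.mp hw⟩) h

lemma id_parts [Infinite K] {T : Finset (FreeMagma ℕ)} {c : FreeMagma ℕ → F}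
    (h : ∀ y : ℕ → E, pe T c y = 0) (μ : Multiset ℕ) (y : ℕ → E) : pe (pt T μ) c y = 0 := by
  by_cases hμ : μ ∈ md T
  · refine sep (K := K) (md T) (fun μ => pe (pt T μ) c y) (fun l => ?_) μ hμ
    rw [← pe_scale_parts]
    exact h _
  · exact pe_empty_part hμ y

lemma add_parts [Infinite K] {T : Finset (FreeMagma ℕ)} {c : FreeMagma ℕ → F} {z : ℕ}
    (h : ∀ (y : ℕ → E) u v, pe T c (update y z (u + v)) =
      pe T c (update y z u) + pe T c (update y z v)) (μ : Multiset ℕ) (y : ℕ → E) (u v : E) :
    pe (pt T μ) c (update y z (u + v)) =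
      pe (pt T μ) c (update y z u) + pe (pt T μ) c (update y z v) := by
  rw [← sub_eq_zero]
  by_cases hμ : μ ∈ md T
  · refine sep (K := K) (md T) (fun μ => pe (pt T μ) c (update y z (u + v)) -
      (pe (pt T μ) c (update y z u) + pe (pt T μ) c (update y z v))) (fun l => ?_) μ hμ
    have e : ∀ a : E, (fun i => l i • update y z a i) =
        update (fun i => l i • y i) z (l z • a) := by
      intro a
      funext i
      by_cases hi : i = z
      · subst hi
        rw [update_self, update_self]
      · rw [update_of_ne hi, update_of_ne hi]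
    simp only [smul_sub, smul_add]
    rw [Finset.sum_sub_distrib, Finset.sum_add_distrib, ← pe_scale_parts, ← pe_scale_parts,
      ← pe_scale_parts, e, e, e, smul_add, h, sub_self]
  · rw [pe_empty_part hμ, pe_empty_part hμ, pe_empty_part hμ]
    simp

end E

variable {S : Set (MonoidAlgebra F (FreeMagma ℕ))}
variable {B : Type} [NonUnitalNonAssocRing B] [Module F B] [IsScalarTower F B B]
  [SMulCommClass F B B] {x : ℕ → B}
variable {E : Type} [NonUnitalNonAssocRing E] [Module K E] [IsScalarTower K E E]
  [SMulCommClass K E E] [Module F E] [IsScalarTower F K E] [IsScalarTower F E E]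
  [SMulCommClass F E E]

lemma pe_j (j : B →ₙₐ[F] E) (T : Finset (FreeMagma ℕ)) (c : FreeMagma ℕ → F) (y : ℕ → B) :
    j (pe T c y) = pe T c fun i => j (y i) := by
  unfold pe
  rw [map_sum]
  refine Finset.sum_congr rfl fun w hw => ?_
  clear hw
  rw [map_smul]
  congr 1
  induction w using FreeMagma.recOnMul with
  | ih1 i => rfl
  | ih2 a b iha ihb => rw [map_mul, map_mul, map_mul, iha, ihb]

/-- an additive polynomial in the extremal position -/
lemma extremal {U0 : Finset ℕ} {D : ℕ} {g0 : Fr F} (h0 : g0 ∈ SU F U0 D) (hB : IdB F B g0)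
    (hE : ¬ IdB F E g0) : ∃ (U : Finset ℕ) (g : Fr F), g ∈ SU F U D ∧ IdB F B g ∧
      ¬ IdB F E g ∧ ∀ z ∈ U, ∀ (y : ℕ → E) u v, ev (update y z (u + v)) g =
        ev (update y z u) g + ev (update y z v) g := by
  by_contra hcon
  push Not at hcon
  have key : ∀ n : ℕ, ∃ (U : Finset ℕ) (g : Fr F), g ∈ SU F U D ∧ IdB F B g ∧ ¬ IdB F E g ∧
      n ≤ U.card := by
    intro n
    induction n with
    | zero => exact ⟨U0, g0, h0, hB, hE, Nat.zero_le _⟩
    | succ n ih =>
      obtain ⟨U, g, h1, h2, h3, h4⟩ := ih
      obtain ⟨z, hz, y, u, v, h5⟩ := hcon U g h1 h2 h3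
      obtain ⟨z', hz'⟩ := Infinite.exists_notMem_finset U
      refine ⟨insert z' U, th F z z' g - g - th' F z z' g, mixed_su hz hz' h1, ?_, ?_, ?_⟩
      · intro ψ
        rw [map_sub, map_sub, ev_th, ev_th', h2, h2, h2]
        simp
      · intro h6
        apply h5
        have hne : z ≠ z' := by rintro rfl; exact hz' hz
        have h7 := h6 (update (update y z u) z' v)
        rw [map_sub, map_sub, ev_th, ev_th'] at h7
        have e1 : update (update y z u) z' v z = u := by
          rw [update_of_ne hne, update_self]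
        have e2 : update (update y z u) z' v z' = v := update_self _ _ _
        rw [e1, e2] at h7
        have hU : ∀ i ∈ U, i ≠ z' := fun i hi h => hz' (h ▸ hi)
        have c1 : ev (update (update (update y z u) z' v) z (u + v)) g =
            ev (update y z (u + v)) g := ev_congr_su h1 _ _ fun i hi => by
          by_cases hiz : i = z
          · subst hiz; rw [update_self, update_self]
          · rw [update_of_ne hiz, update_of_ne (hU i hi), update_of_ne hiz, update_of_ne hiz]
        have c2 : ev (update (update y z u) z' v) g = ev (update y z u) g :=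
          ev_congr_su h1 _ _ fun i hi => by rw [update_of_ne (hU i hi)]
        have c3 : ev (update (update (update y z u) z' v) z v) g = ev (update y z v) g :=
          ev_congr_su h1 _ _ fun i hi => by
          by_cases hiz : i = z
          · subst hiz; rw [update_self, update_self]
          · rw [update_of_ne hiz, update_of_ne (hU i hi), update_of_ne hiz, update_of_ne hiz]
        rw [c1, c2, c3, sub_sub, sub_eq_zero] at h7
        exact h7
      · rw [Finset.card_insert_of_notMem hz']
        omega
  obtain ⟨U, g, h1, h2, h3, h4⟩ := key (D + 1)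
  have h5 : SU F U D ≠ ⊥ := by
    intro h6
    rw [h6, Submodule.mem_bot] at h1
    apply h3
    intro ψ
    rw [h1, map_zero]
  have := su_card h5
  omega

/-- the main theorem of module FF -/
theorem exists_ml [Infinite K] (hS : AssNil F S) (h : MaxAlg F S B x) (j : B →ₙₐ[F] E)
    (hj : ∀ b, j b = 0 → b = 0) (hspan : Submodule.span K (Set.range j) = ⊤)
    (hLN : ∀ m : ℕ, ∃ N : ℕ, ∀ (y : Fin m → E) (w : FreeMagma (Fin m)), N ≤ w.length →
      FreeMagma.lift y w = 0) :
    ∃ (A : Finset ℕ) (T : Finset (FreeMagma ℕ)) (c : FreeMagma ℕ → F),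
      (∀ w ∈ T, lets w = A.val) ∧ ∑ w ∈ T, c w ≠ 0 ∧
      ∀ y : ℕ → B, ∑ w ∈ T, c w • FreeMagma.lift y w = 0 := by
  classical
  obtain ⟨G, hG1, hG2⟩ := exists_G hS h.sat
  obtain ⟨T0, c0, rfl⟩ := rep G
  have hG3 : ∀ y : ℕ → B, pe T0 c0 y = 0 := by
    intro y
    rw [← ev_pe]
    exact hG1 y
  obtain ⟨A, hAc⟩ := Lq_ne T0 c0 hG2
  by_cases hfin : ∀ y : ℕ → B, pe (T0.filter fun w => lets w = A.val) c0 y = 0
  · exact ⟨A, _, c0, fun w hw => (Finset.mem_filter.1 hw).2, hAc, hfin⟩
  exfalso
  -- the part with letter set `A`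
  set T1 := T0.filter fun w => (lets w).toFinset = A with hT1
  have hB1 : ∀ y : ℕ → B, pe T1 c0 y = 0 := fun y => part_supp T0 c0 hG3 A y
  set D := T0.sup fun w => (lets w).card with hD
  have h0 : (∑ w ∈ T1, c0 w • mo F w) ∈ SU F A D := by
    refine Submodule.sum_mem _ fun w hw => Submodule.smul_mem _ _ (Submodule.subset_span ?_)
    rw [hT1, Finset.mem_filter] at hw
    exact ⟨w, hw.2, Finset.le_sup (f := fun w => (lets w).card) hw.1, rfl⟩
  have hIB : IdB F B (∑ w ∈ T1, c0 w • mo F w) := by
    intro ψ
    rw [ev_pe]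
    exact hB1 ψ
  have hIE : ¬ IdB F E (∑ w ∈ T1, c0 w • mo F w) := by
    intro hI
    apply hfin
    intro y
    apply hj
    rw [pe_j]
    have h1 : ∀ y : ℕ → E, pe T1 c0 y = 0 := by
      intro y
      rw [← ev_pe]
      exact hI y
    have h2 := id_parts (K := K) h1 A.val (fun i => j (y i))
    have h3 : pt T1 A.val = T0.filter fun w => lets w = A.val := by
      ext w
      rw [mem_pt, hT1, Finset.mem_filter, Finset.mem_filter]
      constructor
      · rintro ⟨⟨h4, _⟩, h5⟩; exact ⟨h4, h5⟩
      · rintro ⟨h4, h5⟩
        refine ⟨⟨h4, ?_⟩, h5⟩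
        rw [h5]
        exact Finset.val_toFinset A
    rwa [h3] at h2
  obtain ⟨U, g, hg, hgB, hgE, hadd⟩ := extremal (B := B) (E := E) h0 hIB hIE
  obtain ⟨T, c, rfl, hTU⟩ := su_rep hg
  have hTB : ∀ y : ℕ → B, pe T c y = 0 := fun y => by rw [← ev_pe]; exact hgB y
  have hTadd : ∀ z ∈ U, ∀ (y : ℕ → E) u v, pe T c (update y z (u + v)) =
      pe T c (update y z u) + pe T c (update y z v) := by
    intro z hz y u v
    rw [← ev_pe, ← ev_pe, ← ev_pe]
    exact hadd z hz y u v
  have hsupp : ∀ μ ∈ md T, μ.toFinset = U := by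
    intro μ hμ
    obtain ⟨w, hw, rfl⟩ := mem_md.mp hμ
    exact (hTU w hw).1
  -- a part which is not squarefree and not an identity of `B`
  obtain ⟨μ, hμ, hnd, y0, hy0⟩ : ∃ μ ∈ md T, ¬ μ.Nodup ∧ ∃ y : ℕ → B, pe (pt T μ) c y ≠ 0 := by
    by_contra hcon
    push Not at hcon
    have hall : ∀ μ ∈ md T, ∀ y : ℕ → B, pe (pt T μ) c y = 0 := by
      intro μ hμ y
      by_cases hn : μ.Nodup
      · have h1 := hTB y
        rw [pe_parts, Finset.sum_eq_single μ] at h1
        · exact h1
        · intro ν hν hne
          by_cases hn2 : ν.Nodup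
          · exfalso
            apply hne
            have h2 : ν.toFinset.val = μ.toFinset.val := by rw [hsupp ν hν, hsupp μ hμ]
            rwa [Multiset.toFinset_val, Multiset.toFinset_val, hn2.dedup, hn.dedup] at h2
          · exact hcon ν hν hn2 y
        · intro h2
          exact absurd hμ h2
      · exact hcon μ hμ hn y
    apply hgE
    have key : ∀ V : Finset ℕ, V ⊆ U → ∀ y : ℕ → E,
        (∀ z ∈ U, z ∉ V → ∃ (l : K) (b : B), y z = l • j b) → pe T c y = 0 := by
      intro V
      induction V using Finset.induction_on with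
      | empty =>
        intro _ y hy
        have hy' : ∀ z, ∃ (l : K) (b : B), z ∈ U → y z = l • j b := by
          intro z
          by_cases hz : z ∈ U
          · obtain ⟨l, b, hlb⟩ := hy z hz (Finset.notMem_empty z)
            exact ⟨l, b, fun _ => hlb⟩
          · exact ⟨0, 0, fun h => absurd h hz⟩
        choose l b hlb using hy'
        have e1 : pe T c y = pe T c fun i => l i • j (b i) := by
          refine pe_congr fun w hw a ha => hlb a ?_
          rw [← (hTU w hw).1, Multiset.mem_toFinset]
          exact ha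
        rw [e1, pe_scale_parts]
        refine Finset.sum_eq_zero fun μ hμ => ?_
        rw [← pe_j, hall μ hμ, map_zero, smul_zero]
      | insert z V hzV ih =>
        intro hVU y hy
        have hz : z ∈ U := hVU (Finset.mem_insert_self _ _)
        have hV : V ⊆ U := fun i hi => hVU (Finset.mem_insert_of_mem hi)
        have h2 : ∀ e : E, ∀ l : K, pe T c (update y z (l • e)) = 0 := by
          intro e
          have he : e ∈ Submodule.span K (Set.range j) := by rw [hspan]; trivial
          induction he using Submodule.span_induction with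
          | mem e he =>
            obtain ⟨b, rfl⟩ := he
            intro l
            refine ih hV _ fun i hi hiV => ?_
            by_cases hiz : i = z
            · subst hiz
              exact ⟨l, b, update_self _ _ _⟩
            · rw [update_of_ne hiz]
              refine hy i hi ?_
              rw [Finset.mem_insert]
              push Not
              exact ⟨hiz, hiV⟩
          | zero =>
            intro l
            rw [smul_zero]
            have := hTadd z hz y 0 0
            rw [add_zero] at this
            exact left_eq_add.mp this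
          | add a a' _ _ ha ha' =>
            intro l
            rw [smul_add, hTadd z hz, ha, ha', add_zero]
          | smul l' a _ ha =>
            intro l
            rw [smul_smul]
            exact ha _
        have h3 := h2 (y z) 1
        rwa [one_smul, update_eq_self] at h3
    intro ψ
    rw [ev_pe]
    exact key U (Finset.Subset.refl _) ψ fun z hz hz' => absurd hz hz'
  -- the contradiction
  rw [Multiset.nodup_iff_count_le_one] at hnd
  push Not at hnd
  obtain ⟨z, hz2⟩ := hnd
  have hzμ : z ∈ μ := Multiset.count_pos.mp (by omega)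
  have hμU : ∀ i ∈ μ, i ∈ U := fun i hi => by
    rw [← hsupp μ hμ, Multiset.mem_toFinset]
    exact hi
  have hTμ : ∀ w ∈ pt T μ, lets w = μ := fun w hw => (mem_pt.mp hw).2
  have haddμ : ∀ i ∈ μ, ∀ (y : ℕ → E) u v, pe (pt T μ) c (update y i (u + v)) =
      pe (pt T μ) c (update y i u) + pe (pt T μ) c (update y i v) := fun i hi =>
    add_parts (K := K) (hTadd i (hμU i hi)) μ
  have haddB : ∀ (y : ℕ → B) u v, pe (pt T μ) c (update y z (u + v)) =
      pe (pt T μ) c (update y z u) + pe (pt T μ) c (update y z v) := by
    intro y u v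
    rw [← sub_eq_zero]
    apply hj
    have e : ∀ a : B, (fun i => j (update y z a i)) = update (fun i => j (y i)) z (j a) := by
      intro a
      funext i
      by_cases hi : i = z
      · subst hi
        rw [update_self, update_self]
      · rw [update_of_ne hi, update_of_ne hi]
    rw [map_sub, map_add, pe_j, pe_j, pe_j, e, e, e, map_add, haddμ z hzμ, sub_self]
  obtain ⟨t, ht⟩ := nests_exist hTμ haddB h ⟨y0, hy0⟩
  obtain ⟨r, hr⟩ := nests_vanish (K := K) (t := t) hLN hTμ hz2 haddμ
  obtain ⟨L, hL, hLt, a, ha⟩ := ht r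
  apply ha
  apply hj
  have hmap : ∀ L : List (List Bool × (ℕ ⊕ ℕ → B)), ∀ a : B,
      j (L.foldr (fun p u => lvl (pt T μ) c z p.1 p.2 u) a) =
      (L.map fun p => (p.1, fun i => j (p.2 i))).foldr
        (fun p u => lvl (pt T μ) c z p.1 p.2 u) (j a) := by
    intro L a
    induction L with
    | nil => rfl
    | cons p L ih =>
      rw [List.foldr_cons, List.map_cons, List.foldr_cons, ← ih]
      unfold lvl
      rw [pe_j]
      congr 1
      funext i
      by_cases hi : i = z
      · subst hi
        rw [update_self, update_self]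
        exact mw_map j (map_mul j) _ _ _
      · rw [update_of_ne hi, update_of_ne hi]
  rw [hmap]
  refine hr _ (by rw [List.length_map, hL]) (fun p hp => ?_) _
  obtain ⟨p', hp', rfl⟩ := List.mem_map.mp hp
  exact hLt p' hp'

end main

end FF

end Pool.Agent.TP
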